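import Pool.Agent.Lib_helper19.LSPD.IKB
import Pool.Agent.Lib_helper61.FG.DivB

/-!
# Project HL4: incomplete Kloosterman type sums of functions on `ZMod c`
-/

set_option autoImplicit false

namespace Pool.Agent.HL4

open Finset Pool.Agent.LSPD

noncomputable section

/-- incomplete Kloosterman sums with the main term -/
theorem inc_ik (q : ℕ) [NeZero q] (a : ZMod q) (K : ℕ) :
    ‖IK q a K - (K : ℂ) / q * KL q a 0‖ ≤
      2 * (q : ℝ) ^ (3 / 4 : ℝ) * tau q ^ 2 * (1 + Real.log q) := by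
  have hq : 0 < q := NeZero.pos q
  have hqr : (0 : ℝ) < q := by exact_mod_cast hq
  obtain ⟨z, rfl⟩ : ∃ z : ℤ, (z : ZMod q) = a := ⟨(a.val : ℤ), by
    push_cast
    exact ZMod.natCast_zmod_val a⟩
  have hf := ikb_fourier q z K
  -- split off `l = 0`
  have hsplit : ∑ l : ZMod q, KL q z l * ∑ k ∈ Icc 1 K, ZMod.stdAddChar (-(l * (k : ZMod q))) =
      KL q z 0 * K + ∑ l ∈ Ico 1 q, KL q z ((l : ℕ) : ZMod q) *
        ∑ k ∈ Icc 1 K, ZMod.stdAddChar (-(((l : ℕ) : ZMod q) * (k : ZMod q))) := by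
    have h1 : ∑ l : ZMod q, KL q z l * ∑ k ∈ Icc 1 K, ZMod.stdAddChar (-(l * (k : ZMod q))) =
        ∑ l ∈ range q, KL q z ((l : ℕ) : ZMod q) *
        ∑ k ∈ Icc 1 K, ZMod.stdAddChar (-(((l : ℕ) : ZMod q) * (k : ZMod q))) := by
      refine Finset.sum_bij (fun A _ => A.val) ?_ ?_ ?_ ?_
      · intro A _; exact Finset.mem_range.2 (ZMod.val_lt A)
      · intro A _ B _ h; exact ZMod.val_injective q h
      · intro a ha
        exact ⟨(a : ZMod q), Finset.mem_univ _, ZMod.val_cast_of_lt (Finset.mem_range.1 ha)⟩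
      · intro A _; rw [ZMod.natCast_zmod_val]
    rw [h1, Finset.range_eq_Ico, Finset.sum_eq_sum_Ico_succ_bot hq]
    congr 1
    simp
  rw [hsplit] at hf
  have hqc : (q : ℂ) ≠ 0 := by exact_mod_cast hq.ne'
  have hfd : (q : ℂ) * (IK q z K - (K : ℂ) / q * KL q z 0) = ∑ l ∈ Ico 1 q,
      KL q z ((l : ℕ) : ZMod q) *
        ∑ k ∈ Icc 1 K, ZMod.stdAddChar (-(((l : ℕ) : ZMod q) * (k : ZMod q))) := by
    rw [mul_sub, hf]
    field_simp
    ring
  have hn : (q : ℝ) * ‖IK q z K - (K : ℂ) / q * KL q z 0‖ ≤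
      2 * (q : ℝ) * ((q : ℝ) ^ (3 / 4 : ℝ)) * tau q ^ 2 * (1 + Real.log q) := by
    calc (q : ℝ) * ‖IK q z K - (K : ℂ) / q * KL q z 0‖
        = ‖(q : ℂ) * (IK q z K - (K : ℂ) / q * KL q z 0)‖ := by
          rw [norm_mul, Complex.norm_natCast]
      _ ≤ ∑ l ∈ Ico 1 q, ‖KL q z ((l : ℕ) : ZMod q) *
        ∑ k ∈ Icc 1 K, ZMod.stdAddChar (-(((l : ℕ) : ZMod q) * (k : ZMod q)))‖ := by
          rw [hfd]
          exact norm_sum_le _ _
      _ ≤ ∑ l ∈ Ico 1 q, (q : ℝ) * ((q : ℝ) ^ (3 / 4 : ℝ) * tau q) *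
            ((Nat.gcd l q : ℝ) / l + (Nat.gcd l q : ℝ) / ((q - l : ℕ) : ℝ)) := by
          refine Finset.sum_le_sum fun l hl => ?_
          rw [Finset.mem_Ico] at hl
          rw [norm_mul]
          have h0 : 0 ≤ tau q := by have := ikb_tau q hq; linarith
          calc _ ≤ (2 * (q : ℝ) ^ (3 / 4 : ℝ) * tau q * (Nat.gcd l q : ℝ)) *
              ((q : ℝ) / 2 * (1 / l + 1 / ((q - l : ℕ) : ℝ))) := by
                refine mul_le_mul (ikb_kl q z l) (ikb_geo q hl.1 hl.2 K) (norm_nonneg _) ?_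
                positivity
            _ = _ := by ring
      _ = (q : ℝ) * ((q : ℝ) ^ (3 / 4 : ℝ) * tau q) *
            (2 * ∑ l ∈ Ico 1 q, (Nat.gcd l q : ℝ) / l) := by
          rw [← Finset.mul_sum, Finset.sum_add_distrib]
          congr 1
          rw [two_mul]
          congr 1
          refine Finset.sum_nbij' (fun l => q - l) (fun l => q - l) ?_ ?_ ?_ ?_ ?_
          · intro l hl; rw [Finset.mem_Ico] at hl ⊢; omega
          · intro l hl; rw [Finset.mem_Ico] at hl ⊢; omega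
          · intro l hl; rw [Finset.mem_Ico] at hl; omega
          · intro l hl; rw [Finset.mem_Ico] at hl; omega
          · intro l hl
            rw [Finset.mem_Ico] at hl
            rw [Nat.gcd_self_sub_left hl.2.le]
      _ ≤ _ := by
          have h0 : 0 ≤ tau q := by have := ikb_tau q hq; linarith
          have h1 := ikb_sum q hq
          calc (q : ℝ) * ((q : ℝ) ^ (3 / 4 : ℝ) * tau q) *
            (2 * ∑ l ∈ Ico 1 q, (Nat.gcd l q : ℝ) / l) ≤ (q : ℝ) * ((q : ℝ) ^ (3 / 4 : ℝ) * tau q) *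
            (2 * (tau q * (1 + Real.log q))) := by gcongr
            _ = _ := by ring
  have e1 : ‖IK q z K - (K : ℂ) / q * KL q z 0‖ =
      (q : ℝ) * ‖IK q z K - (K : ℂ) / q * KL q z 0‖ / q := by field_simp
  rw [e1, div_le_iff₀ hqr]
  calc _ ≤ _ := hn
    _ = _ := by ring

/-! ### The discrete Fourier transform -/

/-- the Fourier coefficients -/
def dF (c : ℕ) [NeZero c] (f : ZMod c → ℂ) (ν : ZMod c) : ℂ :=
  (c : ℂ)⁻¹ * ∑ a : ZMod c, f a * ZMod.stdAddChar (-(ν * a))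

theorem inc_inv (c : ℕ) [NeZero c] (f : ZMod c → ℂ) (a : ZMod c) :
    f a = ∑ ν : ZMod c, dF c f ν * ZMod.stdAddChar (ν * a) := by
  have hc : (c : ℂ) ≠ 0 := by exact_mod_cast (NeZero.ne c)
  have h1 : ∀ ν : ZMod c, dF c f ν * (ZMod.stdAddChar (ν * a) : ℂ) =
      (c : ℂ)⁻¹ * ∑ b : ZMod c, f b * ZMod.stdAddChar (ν * (a - b)) := by
    intro ν
    rw [dF, mul_assoc, Finset.sum_mul]
    congr 1
    refine Finset.sum_congr rfl fun b _ => ?_
    rw [mul_assoc, ← AddChar.map_add_eq_mul]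
    congr 2
    ring
  rw [Finset.sum_congr rfl fun ν _ => h1 ν, ← Finset.mul_sum, Finset.sum_comm]
  have h2 : ∀ b : ZMod c, ∑ ν : ZMod c, f b * (ZMod.stdAddChar (ν * (a - b)) : ℂ) =
      if b = a then (c : ℂ) * f a else 0 := by
    intro b
    rw [← Finset.mul_sum, AddChar.sum_mulShift _ (ZMod.isPrimitive_stdAddChar c), ZMod.card]
    by_cases h : b = a
    · rw [if_pos h, if_pos (by rw [h, sub_self]), h]
      ring
    · rw [if_neg h, if_neg (by
        rw [sub_eq_zero]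
        exact fun h' => h h'.symm)]
      simp
  rw [Finset.sum_congr rfl fun b _ => h2 b, Finset.sum_ite_eq' Finset.univ a, if_pos (mem_univ _),
    ← mul_assoc, inv_mul_cancel₀ hc, one_mul]

theorem inc_dF_le (c : ℕ) [NeZero c] (f : ZMod c → ℂ) {B : ℝ} (hB : ∀ a, ‖f a‖ ≤ B) (ν : ZMod c) :
    ‖dF c f ν‖ ≤ B := by
  have hc : (0 : ℝ) < c := by exact_mod_cast (NeZero.pos c)
  rw [dF, norm_mul, norm_inv, Complex.norm_natCast]
  have h1 : ‖∑ a : ZMod c, f a * (ZMod.stdAddChar (-(ν * a)) : ℂ)‖ ≤ c * B := by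
    refine (norm_sum_le _ _).trans ?_
    have h2 : ∀ a ∈ (Finset.univ : Finset (ZMod c)),
        ‖f a * (ZMod.stdAddChar (-(ν * a)) : ℂ)‖ ≤ B := by
      intro a _
      rw [norm_mul, AddChar.norm_apply, mul_one]
      exact hB a
    refine (Finset.sum_le_sum h2).trans ?_
    rw [Finset.sum_const, Finset.card_univ, ZMod.card, nsmul_eq_mul]
  calc (c : ℝ)⁻¹ * ‖∑ a : ZMod c, f a * (ZMod.stdAddChar (-(ν * a)) : ℂ)‖ ≤ (c : ℝ)⁻¹ * (c * B) :=
        mul_le_mul_of_nonneg_left h1 (by positivity)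
    _ = B := by rw [← mul_assoc, inv_mul_cancel₀ hc.ne', one_mul]

theorem inc_dF_shift (c : ℕ) [NeZero c] (f : ZMod c → ℂ) (M : ℕ) {B : ℝ}
    (hB : ∀ a, ‖f (a + M) - f a‖ ≤ B) (ν : ZMod c) :
    ‖dF c f ν‖ * ‖(ZMod.stdAddChar (ν * (M : ZMod c)) : ℂ) - 1‖ ≤ B := by
  have h1 : dF c (fun a => f (a + M) - f a) ν =
      dF c f ν * ((ZMod.stdAddChar (ν * (M : ZMod c)) : ℂ) - 1) := by
    unfold dF
    have h2 : ∑ a : ZMod c, f (a + M) * (ZMod.stdAddChar (-(ν * a)) : ℂ) =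
        ∑ a : ZMod c, f a * (ZMod.stdAddChar (-(ν * a)) : ℂ) *
          ZMod.stdAddChar (ν * (M : ZMod c)) := by
      refine Fintype.sum_equiv (Equiv.addRight (M : ZMod c)) _ _ fun a => ?_
      rw [Equiv.coe_addRight, mul_assoc, ← AddChar.map_add_eq_mul]
      congr 2
      ring
    simp only [sub_mul, Finset.sum_sub_distrib, mul_sub, mul_one]
    rw [h2, ← Finset.sum_mul]
    ring
  have h2 := inc_dF_le c (fun a => f (a + M) - f a) hB ν
  rw [h1, norm_mul] at h2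
  exact h2

theorem inc_geo (q : ℕ) [NeZero q] {l : ℕ} (hl : 1 ≤ l) (hlq : l < q) :
    4 ≤ (q : ℝ) * (1 / l + 1 / ((q - l : ℕ) : ℝ)) *
      ‖(ZMod.stdAddChar ((l : ℕ) : ZMod q) : ℂ) - 1‖ := by
  have hq : 0 < q := NeZero.pos q
  have hqr : (0 : ℝ) < q := by exact_mod_cast hq
  have hlr : (1 : ℝ) ≤ l := by exact_mod_cast hl
  have hlqr : (l : ℝ) < q := by exact_mod_cast hlq
  set z : ℂ := ZMod.stdAddChar ((l : ℕ) : ZMod q) with hz
  have hz1 : z = Complex.exp (Complex.I * (((2 * Real.pi * l / q) : ℝ) : ℂ)) := by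
    rw [hz]
    have : (((l : ℕ) : ZMod q)) = ((((l : ℤ)) : ℤ) : ZMod q) := by push_cast; rfl
    rw [this, ZMod.stdAddChar_coe]
    congr 1
    push_cast
    ring
  have hc : ((q - l : ℕ) : ℝ) = q - l := by rw [Nat.cast_sub hlq.le]
  have hql : (0 : ℝ) < q - l := by linarith
  have hsin : 2 * (1 / (1 / (l : ℝ) + 1 / ((q - l : ℕ) : ℝ))) / q ≤ Real.sin (Real.pi * l / q) := by
    have h3 : 1 / (1 / (l : ℝ) + 1 / ((q - l : ℕ) : ℝ)) ≤ l ∧
        1 / (1 / (l : ℝ) + 1 / ((q - l : ℕ) : ℝ)) ≤ q - l := by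
      rw [hc]
      have p1 : 0 < 1 / (l : ℝ) := by positivity
      have p2 : 0 < 1 / ((q : ℝ) - l) := by positivity
      constructor
      · rw [div_le_iff₀ (by positivity)]
        have : (l : ℝ) * (1 / l) = 1 := by field_simp
        nlinarith
      · rw [div_le_iff₀ (by positivity)]
        have : ((q : ℝ) - l) * (1 / (q - l)) = 1 := by field_simp
        nlinarith
    rcases le_or_gt (2 * (l : ℝ)) q with h | h
    · have h4 := Real.mul_le_sin (x := Real.pi * l / q) (by positivity) (by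
        rw [div_le_div_iff₀ hqr (by norm_num)]
        nlinarith [Real.pi_pos])
      refine le_trans ?_ h4
      have : 2 / Real.pi * (Real.pi * l / q) = 2 * l / q := by
        have := Real.pi_ne_zero
        field_simp
      rw [this]
      gcongr
      exact h3.1
    · have e1 : Real.sin (Real.pi * l / q) = Real.sin (Real.pi * (q - l) / q) := by
        rw [← Real.sin_pi_sub]
        congr 1
        field_simp
      have h4 := Real.mul_le_sin (x := Real.pi * (q - l) / q) (by positivity) (by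
        rw [div_le_div_iff₀ hqr (by norm_num)]
        nlinarith [Real.pi_pos])
      rw [e1]
      refine le_trans ?_ h4
      have : 2 / Real.pi * (Real.pi * (q - l) / q) = 2 * (q - l) / q := by
        have := Real.pi_ne_zero
        field_simp
      rw [this]
      gcongr
      exact h3.2
  have hpos : 0 < 1 / (l : ℝ) + 1 / ((q - l : ℕ) : ℝ) := by
    rw [hc]
    positivity
  have hsinpos : 0 < Real.sin (Real.pi * l / q) := lt_of_lt_of_le (by positivity) hsin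
  have hnorm : ‖z - 1‖ = 2 * Real.sin (Real.pi * l / q) := by
    rw [hz1, Complex.norm_exp_I_mul_ofReal_sub_one]
    have : (2 * Real.pi * l / q) / 2 = (Real.pi * l / q) := by ring
    rw [this, Real.norm_eq_abs, abs_of_pos (by positivity)]
  rw [hnorm]
  have h5 : 2 / q ≤ (1 / (l : ℝ) + 1 / ((q - l : ℕ) : ℝ)) * Real.sin (Real.pi * l / q) := by
    have h6 : (1 / (l : ℝ) + 1 / ((q - l : ℕ) : ℝ)) *
        (2 * (1 / (1 / (l : ℝ) + 1 / ((q - l : ℕ) : ℝ))) / q) = 2 / q := by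
      field_simp
    rw [← h6]
    exact mul_le_mul_of_nonneg_left hsin hpos.le
  have h7 : (q : ℝ) * (2 / q) = 2 := by field_simp
  nlinarith [mul_le_mul_of_nonneg_left h5 hqr.le]

/-- at most `M` solutions of `ν M = j` -/
theorem inc_fib (c M : ℕ) [NeZero c] (hM : 0 < M) (j : ZMod c) :
    (Finset.univ.filter fun ν : ZMod c => ν * (M : ZMod c) = j).card ≤ M := by
  classical
  by_cases hne : (Finset.univ.filter fun ν : ZMod c => ν * (M : ZMod c) = j).Nonempty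
  · obtain ⟨ν₀, hν₀⟩ := hne
    rw [mem_filter] at hν₀
    -- translate to the kernel; the kernel injects into `{0, .., M - 1}` by `ν ↦ ν.val M / c`
    have h1 : (Finset.univ.filter fun ν : ZMod c => ν * (M : ZMod c) = j).card ≤
        (Finset.univ.filter fun ν : ZMod c => ν * (M : ZMod c) = 0).card := by
      refine Finset.card_le_card_of_injOn (fun ν => ν - ν₀) ?_ ?_
      · intro ν hν
        rw [Finset.coe_filter, Set.mem_ofPred_eq] at hν
        simp only [Finset.coe_filter, Set.mem_ofPred_eq, mem_univ, true_and]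
        rw [sub_mul, hν.2, hν₀.2, sub_self]
      · intro ν _ ν' _ h
        exact sub_left_injective h
    refine h1.trans ?_
    have hc : 0 < c := NeZero.pos c
    have h2 : (Finset.univ.filter fun ν : ZMod c => ν * (M : ZMod c) = 0).card ≤
        (Finset.range M).card := by
      refine Finset.card_le_card_of_injOn (fun ν => ν.val * M / c) ?_ ?_
      · intro ν hν
        rw [Finset.coe_filter, Set.mem_ofPred_eq] at hν
        rw [Finset.coe_range, Set.mem_Iio]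
        rw [Nat.div_lt_iff_lt_mul hc]
        have := ZMod.val_lt ν
        nlinarith
      · intro ν hν ν' hν' h
        rw [Finset.coe_filter, Set.mem_ofPred_eq] at hν hν'
        have hd : ∀ ν : ZMod c, ν * (M : ZMod c) = 0 → c ∣ ν.val * M := by
          intro ν h
          rw [← ZMod.natCast_eq_zero_iff]
          push_cast
          rw [ZMod.natCast_zmod_val]
          exact h
        have e1 := Nat.div_mul_cancel (hd ν hν.2)
        have e2 := Nat.div_mul_cancel (hd ν' hν'.2)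
        have h' : ν.val * M / c = ν'.val * M / c := h
        rw [h', e2] at e1
        exact ZMod.val_injective c (Nat.eq_of_mul_eq_mul_right hM e1.symm)
    rwa [Finset.card_range] at h2
  · rw [Finset.not_nonempty_iff_eq_empty] at hne
    rw [hne]
    simp

theorem inc_l1 (c M : ℕ) [NeZero c] (hM : 0 < M) (f : ZMod c → ℂ) {B : ℝ} (hB : ∀ a, ‖f a‖ ≤ B)
    (hB' : ∀ a, ‖f (a + M) - f a‖ ≤ B / c) :
    ∑ ν : ZMod c, ‖dF c f ν‖ ≤ M * B * (2 + Real.log c) := by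
  classical
  have hc : 0 < c := NeZero.pos c
  have hcr : (0 : ℝ) < c := by exact_mod_cast hc
  have hB0 : 0 ≤ B := (norm_nonneg _).trans (hB 0)
  set g : ZMod c → ℝ := fun j => if j = 0 then B else
    B / 4 * (1 / (j.val : ℝ) + 1 / ((c - j.val : ℕ) : ℝ)) with hg
  have hg0 : ∀ j, 0 ≤ g j := by
    intro j
    rw [hg]
    simp only
    split_ifs
    · exact hB0
    · positivity
  have h1 : ∀ ν : ZMod c, ‖dF c f ν‖ ≤ g (ν * (M : ZMod c)) := by
    intro ν
    rw [hg]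
    simp only
    split_ifs with h
    · exact inc_dF_le c f hB ν
    · have hv1 : 1 ≤ (ν * (M : ZMod c)).val := by
        rw [Nat.one_le_iff_ne_zero]
        intro h'
        exact h ((ZMod.val_eq_zero _).1 h')
      have h2 := inc_geo c hv1 (ZMod.val_lt (ν * (M : ZMod c)))
      rw [ZMod.natCast_zmod_val] at h2
      have h3 := inc_dF_shift c f M hB' ν
      set X := ‖(ZMod.stdAddChar (ν * (M : ZMod c)) : ℂ) - 1‖ with hX
      set Y := 1 / ((ν * (M : ZMod c)).val : ℝ) + 1 / ((c - (ν * (M : ZMod c)).val : ℕ) : ℝ) with hY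
      have hY0 : 0 ≤ Y := by positivity
      have h4 : 4 * ‖dF c f ν‖ ≤ (c : ℝ) * Y * (B / c) := by
        calc 4 * ‖dF c f ν‖ ≤ ((c : ℝ) * Y * X) * ‖dF c f ν‖ :=
              mul_le_mul_of_nonneg_right h2 (norm_nonneg _)
          _ = (c : ℝ) * Y * (‖dF c f ν‖ * X) := by ring
          _ ≤ _ := mul_le_mul_of_nonneg_left h3 (by positivity)
      have h5 : (c : ℝ) * Y * (B / c) = B * Y := by field_simp
      rw [h5] at h4
      linarith
  have h2 : ∑ ν : ZMod c, g (ν * (M : ZMod c)) ≤ M * ∑ j : ZMod c, g j := by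
    rw [← Finset.sum_fiberwise_of_maps_to (s := Finset.univ) (t := Finset.univ)
      (g := fun ν : ZMod c => ν * (M : ZMod c)) (fun _ _ => mem_univ _), Finset.mul_sum]
    refine Finset.sum_le_sum fun j _ => ?_
    have h3 : ∀ ν ∈ Finset.univ.filter (fun ν : ZMod c => ν * (M : ZMod c) = j),
        g (ν * (M : ZMod c)) = g j := by
      intro ν hν
      rw [(mem_filter.1 hν).2]
    rw [Finset.sum_congr rfl h3, Finset.sum_const, nsmul_eq_mul]
    refine mul_le_mul_of_nonneg_right ?_ (hg0 j)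
    exact_mod_cast inc_fib c M hM j
  have h3 : ∑ j : ZMod c, g j ≤ B * (2 + Real.log c) := by
    have e1 : ∑ j : ZMod c, g j = B + ∑ l ∈ Ico 1 c,
        B / 4 * (1 / (l : ℝ) + 1 / ((c - l : ℕ) : ℝ)) := by
      have e2 : ∑ j : ZMod c, g j = ∑ l ∈ range c, (if l = 0 then B else
          B / 4 * (1 / (l : ℝ) + 1 / ((c - l : ℕ) : ℝ))) := by
        refine Finset.sum_bij (fun A _ => A.val) ?_ ?_ ?_ ?_
        · intro A _; exact Finset.mem_range.2 (ZMod.val_lt A)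
        · intro A _ B _ h; exact ZMod.val_injective c h
        · intro a ha
          exact ⟨(a : ZMod c), Finset.mem_univ _, ZMod.val_cast_of_lt (Finset.mem_range.1 ha)⟩
        · intro A _
          rw [hg]
          simp only
          by_cases hA : A = 0
          · rw [if_pos hA, if_pos (by rw [hA, ZMod.val_zero])]
          · rw [if_neg hA, if_neg (fun h => hA ((ZMod.val_eq_zero _).1 h))]
      rw [e2, Finset.range_eq_Ico, Finset.sum_eq_sum_Ico_succ_bot hc, if_pos rfl]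
      congr 1
      refine Finset.sum_congr rfl fun l hl => ?_
      rw [Finset.mem_Ico] at hl
      rw [if_neg (by omega)]
    rw [e1, ← Finset.mul_sum, Finset.sum_add_distrib]
    have e3 : ∑ l ∈ Ico 1 c, 1 / ((c - l : ℕ) : ℝ) = ∑ l ∈ Ico 1 c, 1 / (l : ℝ) := by
      refine Finset.sum_nbij' (fun l => c - l) (fun l => c - l) ?_ ?_ ?_ ?_ ?_
      · intro l hl; rw [Finset.mem_Ico] at hl ⊢; omega
      · intro l hl; rw [Finset.mem_Ico] at hl ⊢; omega
      · intro l hl; rw [Finset.mem_Ico] at hl; omega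
      · intro l hl; rw [Finset.mem_Ico] at hl; omega
      · intro l hl; rfl
    rw [e3]
    have e4 : ∑ l ∈ Ico 1 c, 1 / (l : ℝ) ≤ 1 + Real.log c := by
      refine le_trans ?_ (ikb_harm c)
      refine Finset.sum_le_sum_of_subset_of_nonneg ?_ fun _ _ _ => by positivity
      intro l hl
      rw [Finset.mem_Ico] at hl
      rw [Finset.mem_Icc]
      omega
    have hlog : 0 ≤ Real.log c := Real.log_natCast_nonneg c
    nlinarith
  calc ∑ ν : ZMod c, ‖dF c f ν‖ ≤ ∑ ν : ZMod c, g (ν * (M : ZMod c)) :=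
        Finset.sum_le_sum fun ν _ => h1 ν
    _ ≤ M * ∑ j : ZMod c, g j := h2
    _ ≤ M * (B * (2 + Real.log c)) := mul_le_mul_of_nonneg_left h3 (by positivity)
    _ = _ := by ring

/-- the sums up to `K` -/
theorem inc_K (c : ℕ) [NeZero c] (f : ZMod c → ℂ) (K : ℕ) :
    ‖(∑ k ∈ (Icc 1 K).filter (fun k => Nat.Coprime k c), f ((k : ZMod c)⁻¹)) -
      (K : ℂ) / c * ∑ u : (ZMod c)ˣ, f u‖ ≤
      (∑ ν : ZMod c, ‖dF c f ν‖) * (2 * (c : ℝ) ^ (3 / 4 : ℝ) * tau c ^ 2 * (1 + Real.log c)) := by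
  have h1 : (∑ k ∈ (Icc 1 K).filter (fun k => Nat.Coprime k c), f ((k : ZMod c)⁻¹)) =
      ∑ ν : ZMod c, dF c f ν * IK c ν K := by
    rw [Finset.sum_congr rfl fun (k : ℕ) _ => inc_inv c f (((k : ℕ) : ZMod c)⁻¹), Finset.sum_comm]
    refine Finset.sum_congr rfl fun ν _ => ?_
    rw [IK, Finset.mul_sum]
  have h2 : ∑ u : (ZMod c)ˣ, f u = ∑ ν : ZMod c, dF c f ν * KL c ν 0 := by
    rw [Finset.sum_congr rfl fun (u : (ZMod c)ˣ) _ => inc_inv c f (u : ZMod c), Finset.sum_comm]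
    refine Finset.sum_congr rfl fun ν _ => ?_
    rw [KL, ← Finset.mul_sum]
    congr 1
    refine Fintype.sum_equiv (Equiv.inv (ZMod c)ˣ) _ _ fun u => ?_
    rw [Equiv.inv_apply, inv_inv, zero_mul, add_zero]
  have h3 : (∑ k ∈ (Icc 1 K).filter (fun k => Nat.Coprime k c), f ((k : ZMod c)⁻¹)) -
      (K : ℂ) / c * ∑ u : (ZMod c)ˣ, f u =
      ∑ ν : ZMod c, dF c f ν * (IK c ν K - (K : ℂ) / c * KL c ν 0) := by
    rw [h1, h2, Finset.mul_sum, ← Finset.sum_sub_distrib]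
    refine Finset.sum_congr rfl fun ν _ => ?_
    ring
  rw [h3, Finset.sum_mul]
  refine (norm_sum_le _ _).trans (Finset.sum_le_sum fun ν _ => ?_)
  rw [norm_mul]
  exact mul_le_mul_of_nonneg_left (inc_ik c ν K) (norm_nonneg _)

/-- intervals of integers -/
theorem inc_int (c : ℕ) [NeZero c] (f : ZMod c → ℂ) (u v : ℤ) (huv : u ≤ v) :
    ‖(∑ d ∈ (Ioc u v).filter (fun d : ℤ => Int.gcd d c = 1), f ((d : ZMod c)⁻¹)) -
      (((v - u : ℤ) : ℂ)) / c * ∑ u : (ZMod c)ˣ, f u‖ ≤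
      2 * ((∑ ν : ZMod c, ‖dF c f ν‖) *
        (2 * (c : ℝ) ^ (3 / 4 : ℝ) * tau c ^ 2 * (1 + Real.log c))) := by
  classical
  have hc : 0 < c := NeZero.pos c
  -- shift
  set m : ℕ := u.natAbs with hm
  have hm1 : 0 ≤ u + m * c := by
    have h1 : -(m : ℤ) ≤ u := by omega
    have h2 : (m : ℤ) ≤ m * c := by
      have : (1 : ℤ) ≤ c := by exact_mod_cast hc
      nlinarith
    linarith
  obtain ⟨u', hu'⟩ := Int.eq_ofNat_of_zero_le hm1
  obtain ⟨v', hv'⟩ := Int.eq_ofNat_of_zero_le (hm1.trans (by linarith : u + m * c ≤ v + m * c))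
  have huv' : u' ≤ v' := by
    have : (u' : ℤ) ≤ v' := by rw [← hu', ← hv']; linarith
    exact_mod_cast this
  have h1 : (∑ d ∈ (Ioc u v).filter (fun d : ℤ => Int.gcd d c = 1), f ((d : ZMod c)⁻¹)) =
      ∑ k ∈ (Ioc u' v').filter (fun k => Nat.Coprime k c), f ((k : ZMod c)⁻¹) := by
    refine Finset.sum_bij' (fun d _ => (d + m * c).toNat) (fun k _ => (k : ℤ) - m * c) ?_ ?_ ?_ ?_ ?_
    · intro d hd
      rw [mem_filter, mem_Ioc] at hd
      have e0 : 0 ≤ d + m * c := by linarith [hd.1.1]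
      have e1 : (((d + m * c).toNat : ℕ) : ℤ) = d + m * c := Int.toNat_of_nonneg e0
      rw [mem_filter, mem_Ioc]
      refine ⟨⟨?_, ?_⟩, ?_⟩
      · have : (u' : ℤ) < ((d + m * c).toNat : ℕ) := by rw [e1, ← hu']; linarith [hd.1.1]
        exact_mod_cast this
      · have : (((d + m * c).toNat : ℕ) : ℤ) ≤ v' := by rw [e1, ← hv']; linarith [hd.1.2]
        exact_mod_cast this
      · have e2 : Int.gcd (((d + m * c).toNat : ℕ) : ℤ) c = 1 := by
          rw [e1, Int.gcd_add_mul_right_left]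
          exact hd.2
        rwa [Int.gcd_natCast_natCast] at e2
    · intro k hk
      rw [mem_filter, mem_Ioc] at hk
      rw [mem_filter, mem_Ioc]
      refine ⟨⟨?_, ?_⟩, ?_⟩
      · have : (u' : ℤ) < k := by exact_mod_cast hk.1.1
        rw [← hu'] at this
        linarith
      · have : (k : ℤ) ≤ v' := by exact_mod_cast hk.1.2
        rw [← hv'] at this
        linarith
      · rw [Int.gcd_sub_mul_right_left, Int.gcd_natCast_natCast]
        exact hk.2
    · intro d hd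
      rw [mem_filter, mem_Ioc] at hd
      have e0 : 0 ≤ d + m * c := by linarith [hd.1.1]
      have e1 : (((d + m * c).toNat : ℕ) : ℤ) = d + m * c := Int.toNat_of_nonneg e0
      rw [e1]
      ring
    · intro k hk
      simp
    · intro d hd
      rw [mem_filter, mem_Ioc] at hd
      have e0 : 0 ≤ d + m * c := by linarith [hd.1.1]
      have e1 : (((d + m * c).toNat : ℕ) : ℤ) = d + m * c := Int.toNat_of_nonneg e0
      have e2 : (((d + m * c).toNat : ℕ) : ZMod c) = (d : ZMod c) := by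
        have : ((((d + m * c).toNat : ℕ) : ℤ) : ZMod c) = ((d + m * c : ℤ) : ZMod c) := by rw [e1]
        push_cast at this
        simpa using this
      rw [e2]
  have h2 : (∑ k ∈ (Ioc u' v').filter (fun k => Nat.Coprime k c), f ((k : ZMod c)⁻¹)) =
      (∑ k ∈ (Icc 1 v').filter (fun k => Nat.Coprime k c), f ((k : ZMod c)⁻¹)) -
      ∑ k ∈ (Icc 1 u').filter (fun k => Nat.Coprime k c), f ((k : ZMod c)⁻¹) := by
    rw [eq_sub_iff_add_eq, add_comm, ← Finset.sum_union]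
    · refine Finset.sum_congr ?_ fun _ _ => rfl
      ext k
      simp only [mem_union, mem_filter, mem_Icc, mem_Ioc]
      constructor
      · rintro (⟨⟨a, b⟩, h⟩ | ⟨⟨a, b⟩, h⟩)
        · exact ⟨⟨a, b.trans huv'⟩, h⟩
        · exact ⟨⟨by omega, b⟩, h⟩
      · rintro ⟨⟨a, b⟩, h⟩
        rcases le_or_gt k u' with h' | h'
        · exact Or.inl ⟨⟨a, h'⟩, h⟩
        · exact Or.inr ⟨⟨h', b⟩, h⟩
    · rw [Finset.disjoint_left]
      intro k hk hk'
      simp only [mem_filter, mem_Icc, mem_Ioc] at hk hk'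
      omega
  have hK1 := inc_K c f u'
  have hK2 := inc_K c f v'
  have e : (((v - u : ℤ) : ℂ)) = (v' : ℂ) - u' := by
    have e3 : v - u = (v' : ℤ) - u' := by
      have a1 : v + m * c = (v' : ℤ) := hv'
      have a2 : u + m * c = (u' : ℤ) := hu'
      linarith
    rw [e3]
    push_cast
    ring
  rw [h1, h2, e]
  have e4 : (∑ k ∈ (Icc 1 v').filter (fun k => Nat.Coprime k c), f ((k : ZMod c)⁻¹)) -
      (∑ k ∈ (Icc 1 u').filter (fun k => Nat.Coprime k c), f ((k : ZMod c)⁻¹)) -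
      ((v' : ℂ) - u') / c * ∑ u : (ZMod c)ˣ, f u =
      ((∑ k ∈ (Icc 1 v').filter (fun k => Nat.Coprime k c), f ((k : ZMod c)⁻¹)) -
        (v' : ℂ) / c * ∑ u : (ZMod c)ˣ, f u) -
      ((∑ k ∈ (Icc 1 u').filter (fun k => Nat.Coprime k c), f ((k : ZMod c)⁻¹)) -
        (u' : ℂ) / c * ∑ u : (ZMod c)ˣ, f u) := by ring
  rw [e4, two_mul]
  exact (norm_sub_le _ _).trans (add_le_add hK2 hK1)

/-- the numerical bound -/
theorem inc_num (M : ℕ) : ∃ C : ℝ, 0 ≤ C ∧ ∀ c : ℕ, 0 < c →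
    2 * ((M * (2 + Real.log c)) * (2 * (c : ℝ) ^ (3 / 4 : ℝ) * tau c ^ 2 * (1 + Real.log c))) + 1 ≤
      C * (c : ℝ) ^ (19 / 25 : ℝ) := by
  obtain ⟨C1, hC10, hC1⟩ := FG61.divisor_bound (ε := 1 / 800) (by norm_num)
  -- `log c ≤ 800 c^(1/800)`
  have hlog : ∀ c : ℕ, 0 < c → Real.log c ≤ 800 * (c : ℝ) ^ (1 / 800 : ℝ) := by
    intro c hc
    have h1 := Real.log_le_rpow_div (x := (c : ℝ)) (Nat.cast_nonneg c) (ε := 1 / 800) (by norm_num)
    calc Real.log c ≤ (c : ℝ) ^ (1 / 800 : ℝ) / (1 / 800) := h1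
      _ = _ := by ring
  refine ⟨2 * ((M * (2 + 800)) * (2 * C1 ^ 2 * (1 + 800))) + 1, by positivity, fun c hc => ?_⟩
  have hcr : (1 : ℝ) ≤ c := by exact_mod_cast hc
  have hc0 : (0 : ℝ) < c := by linarith
  set x : ℝ := (c : ℝ) ^ (1 / 800 : ℝ) with hx
  have hx1 : 1 ≤ x := Real.one_le_rpow hcr (by norm_num)
  have h1 : 2 + Real.log c ≤ (2 + 800) * x := by
    have := hlog c hc
    nlinarith
  have h2 : 1 + Real.log c ≤ (1 + 800) * x := by
    have := hlog c hc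
    nlinarith
  have h3 : tau c ≤ C1 * x := hC1 c hc
  have ht0 : 0 ≤ tau c := by unfold tau; positivity
  have hl0 : 0 ≤ Real.log c := Real.log_natCast_nonneg c
  have hx8 : (c : ℝ) ^ (3 / 4 : ℝ) * x ^ 8 = (c : ℝ) ^ (19 / 25 : ℝ) := by
    rw [hx, ← Real.rpow_natCast ((c : ℝ) ^ (1 / 800 : ℝ)) 8, ← Real.rpow_mul hc0.le,
      ← Real.rpow_add hc0]
    norm_num
  have hx4 : x ^ 4 ≤ x ^ 8 := pow_le_pow_right₀ hx1 (by norm_num)
  have hc34 : (0 : ℝ) ≤ (c : ℝ) ^ (3 / 4 : ℝ) := by positivity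
  have h4 : (M * (2 + Real.log c)) * (2 * (c : ℝ) ^ (3 / 4 : ℝ) * tau c ^ 2 * (1 + Real.log c)) ≤
      (M * ((2 + 800) * x)) * (2 * (c : ℝ) ^ (3 / 4 : ℝ) * (C1 * x) ^ 2 * ((1 + 800) * x)) := by
    gcongr
  have h5 : (M * ((2 + 800) * x)) * (2 * (c : ℝ) ^ (3 / 4 : ℝ) * (C1 * x) ^ 2 * ((1 + 800) * x)) =
      ((M * (2 + 800)) * (2 * C1 ^ 2 * (1 + 800))) * ((c : ℝ) ^ (3 / 4 : ℝ) * x ^ 4) := by ring
  have h6 : (c : ℝ) ^ (3 / 4 : ℝ) * x ^ 4 ≤ (c : ℝ) ^ (19 / 25 : ℝ) := by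
    rw [← hx8]
    exact mul_le_mul_of_nonneg_left hx4 hc34
  have h7 : (1 : ℝ) ≤ (c : ℝ) ^ (19 / 25 : ℝ) := Real.one_le_rpow hcr (by norm_num)
  have h8 : 0 ≤ ((M : ℝ) * (2 + 800)) * (2 * C1 ^ 2 * (1 + 800)) := by positivity
  rw [h5] at h4
  have h9 := mul_le_mul_of_nonneg_left h6 h8
  nlinarith

/-- INC: incomplete sums of functions which are almost invariant under the translation by `M` -/
theorem inc_main (M : ℕ) (hM : 0 < M) : ∃ C : ℝ, 0 ≤ C ∧ ∀ (c : ℕ) [NeZero c] (f : ZMod c → ℂ)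
    (B : ℝ), (∀ a, ‖f a‖ ≤ B) → (∀ a, ‖f (a + M) - f a‖ ≤ B / c) → ∀ U V : ℝ, U ≤ V →
    ‖(∑ d ∈ (Ioc ⌊U⌋ ⌊V⌋).filter (fun d : ℤ => Int.gcd d c = 1), f ((d : ZMod c)⁻¹)) -
      (((V - U) / c : ℝ) : ℂ) * ∑ u : (ZMod c)ˣ, f u‖ ≤ C * B * (c : ℝ) ^ (19 / 25 : ℝ) := by
  obtain ⟨C, hC0, hC⟩ := inc_num M
  refine ⟨C, hC0, fun c _ f B hB hB' U V hUV => ?_⟩
  have hc : 0 < c := NeZero.pos c
  have hcr : (0 : ℝ) < c := by exact_mod_cast hc
  have hB0 : 0 ≤ B := (norm_nonneg _).trans (hB 0)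
  have h1 := inc_int c f ⌊U⌋ ⌊V⌋ (Int.floor_le_floor hUV)
  have h2 := inc_l1 c M hM f hB hB'
  set E : ℝ := 2 * (c : ℝ) ^ (3 / 4 : ℝ) * tau c ^ 2 * (1 + Real.log c) with hE
  have hE0 : 0 ≤ E := by
    have := Real.log_natCast_nonneg c
    have ht0 : 0 ≤ tau c := by unfold tau; positivity
    positivity
  have h3 : ‖∑ u : (ZMod c)ˣ, f u‖ ≤ c * B := by
    refine (norm_sum_le _ _).trans ?_
    refine (Finset.sum_le_sum fun (u : (ZMod c)ˣ) _ => hB (u : ZMod c)).trans ?_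
    rw [Finset.sum_const, nsmul_eq_mul]
    refine mul_le_mul_of_nonneg_right ?_ hB0
    rw [Finset.card_univ, ZMod.card_units_eq_totient]
    exact_mod_cast Nat.totient_le c
  have h4 : ‖((((⌊V⌋ - ⌊U⌋ : ℤ) : ℂ)) / c - (((V - U) / c : ℝ) : ℂ)) * ∑ u : (ZMod c)ˣ, f u‖ ≤
      B := by
    have e1 : ((((⌊V⌋ - ⌊U⌋ : ℤ) : ℂ)) / c - (((V - U) / c : ℝ) : ℂ)) =
        ((((⌊V⌋ : ℝ) - ⌊U⌋ - (V - U)) / c : ℝ) : ℂ) := by
      push_cast
      ring
    rw [e1, norm_mul, Complex.norm_real, Real.norm_eq_abs, abs_div, abs_of_pos hcr]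
    have e2 : |(⌊V⌋ : ℝ) - ⌊U⌋ - (V - U)| ≤ 1 := by
      have a1 := Int.floor_le U
      have a2 := Int.lt_floor_add_one U
      have a3 := Int.floor_le V
      have a4 := Int.lt_floor_add_one V
      rw [abs_le]
      constructor <;> linarith
    calc |(⌊V⌋ : ℝ) - ⌊U⌋ - (V - U)| / c * ‖∑ u : (ZMod c)ˣ, f u‖ ≤ 1 / c * (c * B) := by
          gcongr
      _ = B := by field_simp
  have e5 : (∑ d ∈ (Ioc ⌊U⌋ ⌊V⌋).filter (fun d : ℤ => Int.gcd d c = 1), f ((d : ZMod c)⁻¹)) -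
      (((V - U) / c : ℝ) : ℂ) * ∑ u : (ZMod c)ˣ, f u =
      ((∑ d ∈ (Ioc ⌊U⌋ ⌊V⌋).filter (fun d : ℤ => Int.gcd d c = 1), f ((d : ZMod c)⁻¹)) -
        (((⌊V⌋ - ⌊U⌋ : ℤ) : ℂ)) / c * ∑ u : (ZMod c)ˣ, f u) +
      ((((⌊V⌋ - ⌊U⌋ : ℤ) : ℂ)) / c - (((V - U) / c : ℝ) : ℂ)) * ∑ u : (ZMod c)ˣ, f u := by ring
  rw [e5]
  calc _ ≤ 2 * ((∑ ν : ZMod c, ‖dF c f ν‖) * E) + B := (norm_add_le _ _).trans (add_le_add h1 h4)
    _ ≤ 2 * ((M * B * (2 + Real.log c)) * E) + B := by gcongr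
    _ = B * (2 * ((M * (2 + Real.log c)) * E) + 1) := by ring
    _ ≤ B * (C * (c : ℝ) ^ (19 / 25 : ℝ)) := mul_le_mul_of_nonneg_left (hC c hc) hB0
    _ = _ := by ring

end

end Pool.Agent.HL4
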