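import Pool.Agent.Lib_helper24.HL4.CT
import Pool.Agent.Lib_helper24.HL4.INC

set_option maxHeartbeats 400000
open Complex Finset MeasureTheory

namespace Pool.Agent.HL4

/-- the periodic function attached to `c` -/
noncomputable def cf {M : ℕ} (P : ZMod M → ZMod M → ℂ → ℂ → ℂ) (k0 k1 c : ℕ) (y : ℝ) (w : ℂ)
    (t : ℝ) (a : ZMod c) : ℂ := cg P k0 k1 c y w t (a.val : ℤ)

noncomputable def hcd {M : ℕ} (P : ZMod M → ZMod M → ℂ → ℂ → ℂ) (k0 k1 : ℕ) (y : ℝ) (w : ℂ)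
    (c : ℕ) (d : ℤ) (t : ℝ) : ℂ :=
  if Int.gcd d c = 1 then cf P k0 k1 c y w t ((d : ZMod c)⁻¹) else 0

theorem cf_inv {c : ℕ} (hc : 0 < c) {d : ℤ} (h : Int.gcd d c = 1) :
    (c : ℤ) ∣ ((((d : ZMod c)⁻¹).val : ℕ) : ℤ) * d - 1 := by
  have : NeZero c := ⟨hc.ne'⟩
  rw [← ZMod.intCast_zmod_eq_zero_iff_dvd]
  push_cast
  rw [ZMod.natCast_zmod_val, mul_comm, ZMod.coe_int_mul_inv_eq_one (Int.isCoprime_iff_gcd_eq_one.mpr h),
    sub_self]

theorem ar_pt {M k0 k1 : ℕ} {P : ZMod M → ZMod M → ℂ → ℂ → ℂ} (h : PF M k0 k1 P) {x y : ℝ}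
    (hy : 0 < y) (hy2 : y ≤ 1 / 2) {w : ℂ} (hw : 0 < w.im) {N L : ℕ}
    (hN : 2 ≤ ((N : ℝ) + 1) ^ 2 * y) (hL : N * |x| ≤ L) :
    P 0 1 (x + y * I) (-x + y * w) =
      ∑ c ∈ Icc (1 : ℕ) N, ∑ d ∈ Icc (-(L : ℤ)) L, hcd P k0 k1 y w c d (x + d / c) := by
  set z : ℂ := (x : ℂ) + y * I with hz
  have him : z.im = y := by rw [hz]; simp
  have hre : z.re = x := by rw [hz]; simp
  have hu := pE_unfold (z := z) (by rw [him]; exact hy) (by rw [him]; exact hy2) (N := N) (L := L)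
    (by rw [him]; exact hN) (by rw [hre]; exact hL)
  have h1 := one_le_pE (z := z) (by rw [him]; exact hy)
  have hne : pE z ≠ 0 := by linarith
  have h2 : (1 : ℂ) = ∑ c ∈ Icc (1 : ℕ) N, ∑ d ∈ Icc (-(L : ℤ)) L,
      ((pterm z ((c : ℤ), d) / pE z : ℝ) : ℂ) := by
    have h3 : (1 : ℝ) = ∑ c ∈ Icc (1 : ℕ) N, ∑ d ∈ Icc (-(L : ℤ)) L, pterm z ((c : ℤ), d) / pE z := by
      simp_rw [← Finset.sum_div]
      rw [hu, div_self hne]
    calc (1 : ℂ) = ((1 : ℝ) : ℂ) := by simp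
      _ = _ := by rw [h3]; push_cast; rfl
  calc P 0 1 z (-x + y * w) = P 0 1 z (-x + y * w) * 1 := (mul_one _).symm
    _ = _ := by
      rw [h2, Finset.mul_sum]
      apply Finset.sum_congr rfl
      intro c hc
      rw [mem_Icc] at hc
      rw [Finset.mul_sum]
      apply Finset.sum_congr rfl
      intro d _
      unfold hcd
      split_ifs with hg
      · unfold cf
        rw [← ct_id h (by omega : 0 < c) (cf_inv (by omega : 0 < c) hg) x hy hw]
      · have : pterm z ((c : ℤ), d) = 0 := by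
          unfold pterm
          rw [if_neg]
          rw [Int.gcd_comm]
          exact hg
        rw [this]
        simp

/-- unfolding for one `c` -/
theorem ar_unf {c : ℕ} (hc : 0 < c) {α β τ : ℝ} (hab : α ≤ β) (hτ : 0 ≤ τ) (h : ℤ → ℝ → ℂ)
    (hcont : ∀ d, Continuous (h d)) (hs : ∀ d t, τ ≤ |t| → h d t = 0) (D : Finset ℤ)
    (hD : ∀ t, |t| < τ → ∀ d : ℤ, α ≤ t - d / c → t - d / c < β → d ∈ D) :
    (∑ d ∈ D, ∫ x in α..β, h d (x + d / c) =
      ∫ t in (-τ)..τ, ∑ d ∈ Ioc ⌊(c : ℝ) * (t - β)⌋ ⌊(c : ℝ) * (t - α)⌋, h d t) ∧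
    IntervalIntegrable (fun t => ∑ d ∈ Ioc ⌊(c : ℝ) * (t - β)⌋ ⌊(c : ℝ) * (t - α)⌋, h d t)
      volume (-τ) τ := by
  have hcr : (0 : ℝ) < c := by exact_mod_cast hc
  have heq : (fun t => ∑ d ∈ Ioc ⌊(c : ℝ) * (t - β)⌋ ⌊(c : ℝ) * (t - α)⌋, h d t) =
      fun t => ∑ d ∈ D, (Set.Ico (α + d / c) (β + d / c)).indicator (h d) t := by
    funext t
    by_cases ht : τ ≤ |t|
    · rw [Finset.sum_eq_zero (fun d _ => hs d t ht), Finset.sum_eq_zero]
      intro d _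
      by_cases hm : t ∈ Set.Ico (α + d / c) (β + d / c)
      · rw [Set.indicator_of_mem hm]; exact hs d t ht
      · rw [Set.indicator_of_notMem hm]
    · push Not at ht
      have hmem : ∀ d : ℤ, d ∈ Ioc ⌊(c : ℝ) * (t - β)⌋ ⌊(c : ℝ) * (t - α)⌋ ↔
          t ∈ Set.Ico (α + d / c) (β + d / c) := by
        intro d
        rw [mem_Ioc, Int.floor_lt, Int.le_floor, Set.mem_Ico]
        have e1 : (c : ℝ) * (t - β) < d ↔ t < β + d / c := by
          rw [← sub_lt_iff_lt_add', lt_div_iff₀ hcr, mul_comm]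
        have e2 : (d : ℝ) ≤ (c : ℝ) * (t - α) ↔ α + d / c ≤ t := by
          rw [← le_sub_iff_add_le', div_le_iff₀ hcr, mul_comm]
        rw [e1, e2]
        tauto
      have hsub : Ioc ⌊(c : ℝ) * (t - β)⌋ ⌊(c : ℝ) * (t - α)⌋ ⊆ D := by
        intro d hd
        rw [hmem, Set.mem_Ico] at hd
        exact hD t ht d (by linarith [hd.1]) (by linarith [hd.2])
      rw [← Finset.sum_subset hsub (f := fun d : ℤ => (Set.Ico (α + d / c) (β + d / c)).indicator (h d) t)]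
      · apply Finset.sum_congr rfl
        intro d hd
        rw [hmem] at hd
        rw [Set.indicator_of_mem hd]
      · intro d _ hd
        rw [hmem] at hd
        rw [Set.indicator_of_notMem hd]
  have hint : ∀ d : ℤ, IntervalIntegrable ((Set.Ico (α + d / c) (β + d / c)).indicator (h d))
      volume (-τ) τ := by
    intro d
    have h1 := (hcont d).intervalIntegrable (μ := volume) (-τ) τ
    rw [intervalIntegrable_iff] at h1 ⊢
    exact Integrable.indicator h1 measurableSet_Ico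
  rw [heq]
  constructor
  · rw [intervalIntegral.integral_finsetSum (fun d _ => hint d)]
    apply Finset.sum_congr rfl
    intro d _
    rw [intervalIntegral.integral_comp_add_right (h d), intervalIntegral.integral_of_le (by linarith),
      intervalIntegral.integral_of_le (by linarith), integral_Ioc_eq_integral_Ioo,
      ← integral_Ico_eq_integral_Ioo, ← integral_indicator measurableSet_Ico,
      setIntegral_eq_integral_of_forall_compl_eq_zero]
    intro t ht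
    have : τ ≤ |t| := by
      rw [Set.mem_Ioc] at ht
      by_contra hcon
      push Not at hcon
      rw [abs_lt] at hcon
      exact ht ⟨hcon.1, hcon.2.le⟩
    by_cases hm : t ∈ Set.Ico (α + d / c) (β + d / c)
    · rw [Set.indicator_of_mem hm]; exact hs d t this
    · rw [Set.indicator_of_notMem hm]
  · have h1 := IntervalIntegrable.sum D (fun d _ => hint d)
    have e : (fun t => ∑ d ∈ D, (Set.Ico (α + d / c) (β + d / c)).indicator (h d) t) =
        ∑ d ∈ D, (Set.Ico (α + d / c) (β + d / c)).indicator (h d) := by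
      funext t
      rw [Finset.sum_apply]
    rw [e]
    exact h1

theorem cf_cont {M k0 k1 : ℕ} {P : ZMod M → ZMod M → ℂ → ℂ → ℂ} (h : PF M k0 k1 P) {c : ℕ}
    (hc : 0 < c) {y : ℝ} (hy : 0 < y) {w : ℂ} (hw : 0 < w.im) (a : ZMod c) :
    Continuous fun t : ℝ => cf P k0 k1 c y w t a := ct_cont h hc hy hw _

theorem hcd_cont {M k0 k1 : ℕ} {P : ZMod M → ZMod M → ℂ → ℂ → ℂ} (h : PF M k0 k1 P) {c : ℕ}
    (hc : 0 < c) {y : ℝ} (hy : 0 < y) {w : ℂ} (hw : 0 < w.im) (d : ℤ) :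
    Continuous fun t : ℝ => hcd P k0 k1 y w c d t := by
  unfold hcd
  split_ifs
  · exact cf_cont h hc hy hw _
  · exact continuous_const

theorem hcd_supp {M k0 k1 : ℕ} {P : ZMod M → ZMod M → ℂ → ℂ → ℂ} {c : ℕ}
    (hc : 0 < c) {y : ℝ} (hy : 0 < y) {w : ℂ} (d : ℤ) {t : ℝ}
    (ht : Real.sqrt (2 * y) / c ≤ |t|) : hcd P k0 k1 y w c d t = 0 := by
  unfold hcd
  split_ifs
  · unfold cf
    apply ct_supp hc t hy
    have hcr : (0 : ℝ) < c := by exact_mod_cast hc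
    rw [div_le_iff₀ hcr] at ht
    have h1 : 2 * y ≤ (|t| * c) ^ 2 := by
      rw [← Real.sq_sqrt (show (0 : ℝ) ≤ 2 * y by linarith)]
      have := Real.sqrt_nonneg (2 * y)
      gcongr
    rw [mul_pow, sq_abs] at h1
    nlinarith [sq_nonneg ((c : ℝ) * y)]
  · rfl

/-- the estimate for one `c` -/
theorem ar_c {M k0 k1 : ℕ} {P : ZMod M → ZMod M → ℂ → ℂ → ℂ} (h : PF M k0 k1 P) {R : ℝ}
    (hR : 1 ≤ R) : ∃ C : ℝ, 0 ≤ C ∧ ∀ (c : ℕ) (_ : 0 < c) (y : ℝ) (w : ℂ) (S : ℝ), 0 < y →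
      1 / R ≤ w.im → 1 ≤ S → ‖w‖ ≤ S → ∃ m : ℂ, ∀ (α β : ℝ) (D : Finset ℤ), α ≤ β →
      (∀ t, |t| < Real.sqrt (2 * y) / c → ∀ d : ℤ, α ≤ t - d / c → t - d / c < β → d ∈ D) →
      ‖(∑ d ∈ D, ∫ x in α..β, hcd P k0 k1 y w c d (x + d / c)) - (β - α : ℝ) * m‖ ≤
        C * S ^ 2 * y ^ (-kk k0 k1) * Real.sqrt (2 * y) * ((c : ℝ) ^ (19 / 25 : ℝ) / c) := by
  obtain ⟨C1, hC1, hinc⟩ := inc_main M (by have := h.Mpos; omega)
  obtain ⟨C2, hC2, hbd⟩ := ct_bound h hR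
  refine ⟨2 * (C1 * C2), by positivity, fun c hc y w S hy hw hS hwS => ?_⟩
  have : NeZero c := ⟨hc.ne'⟩
  have hR0 : 0 < R := by linarith
  have hw0 : 0 < w.im := lt_of_lt_of_le (by positivity) hw
  have hcr : (0 : ℝ) < c := by exact_mod_cast hc
  set τ : ℝ := Real.sqrt (2 * y) / c with hτ
  have hτ0 : 0 ≤ τ := by positivity
  refine ⟨∫ t in (-τ)..τ, ∑ u : (ZMod c)ˣ, cf P k0 k1 c y w t u, fun α β D hab hD => ?_⟩
  obtain ⟨e1, e2⟩ := ar_unf hc hab hτ0 (fun d t => hcd P k0 k1 y w c d t)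
    (fun d => hcd_cont h hc hy hw0 d) (fun d t ht => hcd_supp hc hy d ht) D hD
  rw [e1, ← intervalIntegral.integral_const_mul, ← intervalIntegral.integral_sub e2]
  swap
  · apply Continuous.intervalIntegrable
    apply continuous_const.mul
    apply continuous_finsetSum
    intro u _
    exact cf_cont h hc hy hw0 _
  have hk : ∀ t : ℝ, ‖(∑ d ∈ Ioc ⌊(c : ℝ) * (t - β)⌋ ⌊(c : ℝ) * (t - α)⌋, hcd P k0 k1 y w c d t) -
      ((β - α : ℝ) : ℂ) * ∑ u : (ZMod c)ˣ, cf P k0 k1 c y w t u‖ ≤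
      C1 * (C2 * S ^ 2 * y ^ (-kk k0 k1)) * (c : ℝ) ^ (19 / 25 : ℝ) := by
    intro t
    have h1 := hinc c (fun a => cf P k0 k1 c y w t a) (C2 * S ^ 2 * y ^ (-kk k0 k1))
      (fun a => (hbd c hc t y w S hy hw hS hwS _).1) (fun a => by
        have h2 := (hbd c hc t y w S hy hw hS hwS (a.val : ℤ)).2
        have h3 : cf P k0 k1 c y w t (a + M) = cg P k0 k1 c y w t ((a.val : ℤ) + M) := by
          unfold cf
          apply ct_dvd h hc t hy hw0
          push_cast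
          rw [ZMod.natCast_zmod_val, ZMod.natCast_zmod_val]
        show ‖cf P k0 k1 c y w t (a + M) - cf P k0 k1 c y w t a‖ ≤ _
        rw [h3]
        exact h2) ((c : ℝ) * (t - β)) ((c : ℝ) * (t - α)) (by gcongr)
    rw [Finset.sum_filter] at h1
    have h4 : ((c : ℝ) * (t - α) - (c : ℝ) * (t - β)) / c = β - α := by
      field_simp
      ring
    rw [h4] at h1
    exact h1
  refine (intervalIntegral.norm_integral_le_of_norm_le_const (fun t _ => hk t)).trans (le_of_eq ?_)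
  rw [sub_neg_eq_add, abs_of_nonneg (by linarith), hτ]
  ring

theorem ar_sum (N : ℕ) : ∑ c ∈ Icc (1 : ℕ) N, (c : ℝ) ^ (19 / 25 : ℝ) / c ≤
    2 * (N : ℝ) ^ (19 / 25 : ℝ) := by
  induction N with
  | zero => simp
  | succ n ih =>
    rw [Finset.sum_Icc_succ_top (by omega)]
    have hn : (0 : ℝ) < (n : ℝ) + 1 := by positivity
    have h1 : (1 + -(1 / ((n : ℝ) + 1))) ^ (19 / 25 : ℝ) ≤ 1 + (19 / 25) * -(1 / ((n : ℝ) + 1)) := by
      apply rpow_one_add_le_one_add_mul_self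
      · rw [neg_le_neg_iff, div_le_one hn]; linarith [Nat.cast_nonneg (α := ℝ) n]
      · norm_num
      · norm_num
    have h2 : (n : ℝ) = ((n : ℝ) + 1) * (1 + -(1 / ((n : ℝ) + 1))) := by field_simp; ring
    have h3 : (n : ℝ) ^ (19 / 25 : ℝ) ≤ ((n : ℝ) + 1) ^ (19 / 25 : ℝ) *
        (1 + (19 / 25) * -(1 / ((n : ℝ) + 1))) := by
      have h4 : 0 ≤ 1 + -(1 / ((n : ℝ) + 1)) := by
        rw [← sub_eq_add_neg, sub_nonneg, div_le_one hn]; linarith [Nat.cast_nonneg (α := ℝ) n]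
      calc (n : ℝ) ^ (19 / 25 : ℝ) = (((n : ℝ) + 1) * (1 + -(1 / ((n : ℝ) + 1)))) ^ (19 / 25 : ℝ) := by
            rw [← h2]
        _ = ((n : ℝ) + 1) ^ (19 / 25 : ℝ) * (1 + -(1 / ((n : ℝ) + 1))) ^ (19 / 25 : ℝ) :=
            Real.mul_rpow hn.le h4
        _ ≤ _ := by gcongr
    have h5 : 0 < ((n : ℝ) + 1) ^ (19 / 25 : ℝ) := Real.rpow_pos_of_pos hn _
    have h6 : 0 < ((n : ℝ) + 1) ^ (19 / 25 : ℝ) / ((n : ℝ) + 1) := by positivity
    have h7 : ((n : ℝ) + 1) ^ (19 / 25 : ℝ) * (1 + (19 / 25) * -(1 / ((n : ℝ) + 1))) =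
        ((n : ℝ) + 1) ^ (19 / 25 : ℝ) - (19 / 25) * (((n : ℝ) + 1) ^ (19 / 25 : ℝ) / ((n : ℝ) + 1)) := by
      field_simp
      ring
    push_cast
    linarith

theorem arc_triv {M k0 k1 : ℕ} {P : ZMod M → ZMod M → ℂ → ℂ → ℂ} (h : PF M k0 k1 P) {R : ℝ}
    (hR : 1 ≤ R) : ∃ C : ℝ, 0 < C ∧ ∀ (x y : ℝ) (w : ℂ), 0 < y → 1 / R ≤ w.im →
      ‖P 0 1 (x + y * I) (-x + y * w)‖ ≤ C * y ^ (-kk k0 k1) := by
  obtain ⟨C1, hC1, hb⟩ := h.bdd
  have hR0 : 0 < R := by linarith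
  refine ⟨C1 * R ^ ((k1 : ℝ) / 2), by positivity, fun x y w hy hw => ?_⟩
  have hw0 : 0 < w.im := lt_of_lt_of_le (by positivity) hw
  have hZ : ((x : ℂ) + y * I).im = y := by simp
  have hW : (-(x : ℂ) + y * w).im = y * w.im := by simp
  have h1 := hb 0 1 (x + y * I) (-x + y * w) (by rw [hZ]; exact hy) (by rw [hW]; positivity)
  rw [hZ, hW, Real.mul_rpow hy.le hw0.le] at h1
  refine h1.trans ?_
  have h2 : w.im ^ (-((k1 : ℝ) / 2)) ≤ R ^ ((k1 : ℝ) / 2) := by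
    rw [Real.rpow_neg hw0.le, ← Real.inv_rpow hw0.le]
    apply Real.rpow_le_rpow (by positivity) _ (by positivity)
    rw [inv_le_comm₀ hw0 hR0]
    simpa using hw
  have h3 : y ^ (-kk k0 k1) = y ^ (-((k0 : ℝ) / 2)) * y ^ (-((k1 : ℝ) / 2)) := by
    rw [← Real.rpow_add hy]
    congr 1
    unfold kk
    ring
  rw [h3]
  have h4 := Real.rpow_pos_of_pos hy (-((k0 : ℝ) / 2))
  have h5 := Real.rpow_pos_of_pos hy (-((k1 : ℝ) / 2))
  calc C1 * y ^ (-((k0 : ℝ) / 2)) * (y ^ (-((k1 : ℝ) / 2)) * w.im ^ (-((k1 : ℝ) / 2)))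
      ≤ C1 * y ^ (-((k0 : ℝ) / 2)) * (y ^ (-((k1 : ℝ) / 2)) * R ^ ((k1 : ℝ) / 2)) := by gcongr
    _ = _ := by ring

/-- (ARC): equidistribution of arcs of closed horocycles -/
theorem arc {M k0 k1 : ℕ} {P : ZMod M → ZMod M → ℂ → ℂ → ℂ} (h : PF M k0 k1 P) {R : ℝ}
    (hR : 1 ≤ R) : ∃ C : ℝ, 0 < C ∧ ∀ (y : ℝ) (w : ℂ) (S α β : ℝ), 0 < y → y ≤ 1 →
      1 / R ≤ w.im → w.im ≤ R → 1 ≤ S → ‖w‖ ≤ S → α ≤ β → β ≤ α + 1 →
      ‖(∫ x in α..β, P 0 1 (x + y * I) (-x + y * w)) -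
        (β - α) * ∫ x in (0 : ℝ)..1, P 0 1 (x + y * I) (-x + y * w)‖ ≤
        C * S ^ 2 * y ^ (-kk k0 k1 + 3 / 25) := by
  obtain ⟨C1, hC1, hc⟩ := ar_c h hR
  obtain ⟨C2, hC2, ht⟩ := arc_triv h hR
  refine ⟨16 * C1 + 4 * C2, by positivity, fun y w S α β hy hy1 hw _ hS hwS hab hab1 => ?_⟩
  have hR0 : 0 < R := by linarith
  have hw0 : 0 < w.im := lt_of_lt_of_le (by positivity) hw
  have hS2 : 1 ≤ S ^ 2 := by nlinarith
  have hyk : 0 < y ^ (-kk k0 k1) := Real.rpow_pos_of_pos hy _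
  have hye : 0 < y ^ (3 / 25 : ℝ) := Real.rpow_pos_of_pos hy _
  rw [Real.rpow_add hy]
  by_cases hyh : y ≤ 1 / 2
  · -- the main range
    choose m hm using fun (c : ℕ) (hc0 : 0 < c) => hc c hc0 y w S hy hw hS hwS
    set N : ℕ := ⌊Real.sqrt (2 / y)⌋₊ with hN
    have hN1 : (N : ℝ) ≤ Real.sqrt (2 / y) := Nat.floor_le (Real.sqrt_nonneg _)
    have hN2 : 2 ≤ ((N : ℝ) + 1) ^ 2 * y := by
      have h1 : Real.sqrt (2 / y) ≤ (N : ℝ) + 1 := (Nat.lt_floor_add_one _).le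
      have h2 : 2 / y ≤ ((N : ℝ) + 1) ^ 2 := by
        rw [← Real.sq_sqrt (show 0 ≤ 2 / y by positivity)]
        gcongr
      rwa [div_le_iff₀ hy] at h2
    set MM : ℂ := ∑ c ∈ (Icc (1 : ℕ) N).attach, m c.1 (by have := c.2; rw [mem_Icc] at this; omega) with hMM
    set E : ℝ := C1 * S ^ 2 * y ^ (-kk k0 k1) * Real.sqrt (2 * y) * (2 * (N : ℝ) ^ (19 / 25 : ℝ)) with hE
    have key : ∀ α β : ℝ, α ≤ β → ‖(∫ x in α..β, P 0 1 (x + y * I) (-x + y * w)) -
        (β - α : ℝ) * MM‖ ≤ E := by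
      intro α β hab
      obtain ⟨L, hL⟩ := exists_nat_ge (N * max |α| |β| + 1)
      have hmax : 0 ≤ max |α| |β| := le_max_of_le_left (abs_nonneg _)
      have hx : ∀ x : ℝ, α ≤ x → x ≤ β → |x| ≤ max |α| |β| := by
        intro x h1 h2
        rw [abs_le]
        constructor
        · have := neg_abs_le α
          have := le_max_left |α| |β|
          linarith
        · have := le_abs_self β
          have := le_max_right |α| |β|
          linarith
      have e1 : ∫ x in α..β, P 0 1 (x + y * I) (-x + y * w) =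
          ∑ c ∈ Icc (1 : ℕ) N, ∑ d ∈ Icc (-(L : ℤ)) L, ∫ x in α..β, hcd P k0 k1 y w c d (x + d / c) := by
        have e2 : ∫ x in α..β, P 0 1 (x + y * I) (-x + y * w) = ∫ x in α..β,
            ∑ c ∈ Icc (1 : ℕ) N, ∑ d ∈ Icc (-(L : ℤ)) L, hcd P k0 k1 y w c d (x + d / c) := by
          apply intervalIntegral.integral_congr
          intro x hx'
          rw [Set.uIcc_of_le hab] at hx'
          apply ar_pt h hy hyh hw0 hN2
          have h1 := hx x hx'.1 hx'.2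
          have : (N : ℝ) * |x| ≤ N * max |α| |β| := by gcongr
          linarith
        have hci : ∀ c ∈ Icc (1 : ℕ) N, ∀ d : ℤ, Continuous fun x : ℝ => hcd P k0 k1 y w c d (x + d / c) := by
          intro c hc' d
          rw [mem_Icc] at hc'
          exact (hcd_cont h (by omega : 0 < c) hy hw0 d).comp (by fun_prop)
        rw [e2, intervalIntegral.integral_finsetSum]
        · apply Finset.sum_congr rfl
          intro c hc'
          rw [intervalIntegral.integral_finsetSum]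
          intro d _
          exact (hci c hc' d).intervalIntegrable _ _
        · intro c hc'
          apply Continuous.intervalIntegrable
          apply continuous_finsetSum
          intro d _
          exact hci c hc' d
      rw [e1, hMM, ← Finset.sum_attach (Icc (1 : ℕ) N), Finset.mul_sum, ← Finset.sum_sub_distrib]
      refine (norm_sum_le _ _).trans ?_
      have h2 : ∀ c ∈ (Icc (1 : ℕ) N).attach,
          ‖(∑ d ∈ Icc (-(L : ℤ)) L, ∫ x in α..β, hcd P k0 k1 y w c.1 d (x + d / c.1)) -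
            ((β - α : ℝ) : ℂ) * m c.1 (by have := c.2; rw [mem_Icc] at this; omega)‖ ≤
          C1 * S ^ 2 * y ^ (-kk k0 k1) * Real.sqrt (2 * y) * ((c.1 : ℝ) ^ (19 / 25 : ℝ) / c.1) := by
        intro c _
        have hc' := c.2
        rw [mem_Icc] at hc'
        have hcr : (0 : ℝ) < (c.1 : ℝ) := by
          have : 0 < c.1 := by omega
          exact_mod_cast this
        have hcN : (c.1 : ℝ) ≤ N := by exact_mod_cast hc'.2
        apply hm c.1 (by omega) α β _ hab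
        intro t ht d hd1 hd2
        have h3 : |(d : ℝ)| ≤ c.1 * |t| + c.1 * max |α| |β| := by
          have h4 := hx (t - d / c.1) hd1 hd2.le
          have h5 : (d : ℝ) = c.1 * t - c.1 * (t - d / c.1) := by field_simp; ring
          calc |(d : ℝ)| = |c.1 * t - c.1 * (t - d / c.1)| := by rw [← h5]
            _ ≤ |(c.1 : ℝ) * t| + |(c.1 : ℝ) * (t - d / c.1)| := abs_sub _ _
            _ = c.1 * |t| + c.1 * |t - d / c.1| := by
              rw [abs_mul, abs_mul, abs_of_pos hcr]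
            _ ≤ _ := by gcongr
        have h6 : (c.1 : ℝ) * |t| ≤ 1 := by
          rw [lt_div_iff₀ hcr] at ht
          have : Real.sqrt (2 * y) ≤ 1 := by
            rw [Real.sqrt_le_left zero_le_one]; linarith
          linarith
        have h7 : (c.1 : ℝ) * max |α| |β| ≤ N * max |α| |β| := by gcongr
        have h8 : |(d : ℝ)| ≤ L := by linarith
        have h9 : |d| ≤ (L : ℤ) := by exact_mod_cast h8
        rw [abs_le] at h9
        rw [mem_Icc]
        exact h9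
      refine (Finset.sum_le_sum h2).trans ?_
      rw [Finset.sum_attach (Icc (1 : ℕ) N) (fun c : ℕ => C1 * S ^ 2 * y ^ (-kk k0 k1) *
        Real.sqrt (2 * y) * ((c : ℝ) ^ (19 / 25 : ℝ) / c)), ← Finset.mul_sum, hE]
      have := ar_sum N
      have h3 : 0 ≤ C1 * S ^ 2 * y ^ (-kk k0 k1) * Real.sqrt (2 * y) := by positivity
      exact mul_le_mul_of_nonneg_left this h3
    have hE2 : E ≤ 8 * C1 * S ^ 2 * (y ^ (-kk k0 k1) * y ^ (3 / 25 : ℝ)) := by
      have h1 : (N : ℝ) ^ (19 / 25 : ℝ) ≤ 2 * y ^ (-(19 / 50) : ℝ) := by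
        calc (N : ℝ) ^ (19 / 25 : ℝ) ≤ (Real.sqrt (2 / y)) ^ (19 / 25 : ℝ) := by gcongr
          _ = (2 / y) ^ (19 / 50 : ℝ) := by
            rw [Real.sqrt_eq_rpow, ← Real.rpow_mul (by positivity)]
            norm_num
          _ = 2 ^ (19 / 50 : ℝ) * y ^ (-(19 / 50) : ℝ) := by
            rw [Real.div_rpow (by norm_num) hy.le, Real.rpow_neg hy.le]
            rfl
          _ ≤ 2 * y ^ (-(19 / 50) : ℝ) := by
            have h2 : (2 : ℝ) ^ (19 / 50 : ℝ) ≤ 2 ^ (1 : ℝ) :=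
              Real.rpow_le_rpow_of_exponent_le (by norm_num) (by norm_num)
            rw [Real.rpow_one] at h2
            have := Real.rpow_pos_of_pos hy (-(19 / 50) : ℝ)
            gcongr
      have h3 : Real.sqrt (2 * y) ≤ 2 * y ^ (1 / 2 : ℝ) := by
        rw [Real.sqrt_mul (by norm_num), ← Real.sqrt_eq_rpow]
        have : Real.sqrt 2 ≤ 2 := by
          rw [Real.sqrt_le_left (by norm_num)]; norm_num
        have := Real.sqrt_nonneg y
        gcongr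
      have h4 : y ^ (1 / 2 : ℝ) * y ^ (-(19 / 50) : ℝ) = y ^ (3 / 25 : ℝ) := by
        rw [← Real.rpow_add hy]; norm_num
      have h5 := Real.rpow_pos_of_pos hy (1 / 2 : ℝ)
      calc E = C1 * S ^ 2 * y ^ (-kk k0 k1) * Real.sqrt (2 * y) * (2 * (N : ℝ) ^ (19 / 25 : ℝ)) := hE
        _ ≤ C1 * S ^ 2 * y ^ (-kk k0 k1) * (2 * y ^ (1 / 2 : ℝ)) * (2 * (2 * y ^ (-(19 / 50) : ℝ))) := by
          gcongr
        _ = 8 * C1 * S ^ 2 * (y ^ (-kk k0 k1) * (y ^ (1 / 2 : ℝ) * y ^ (-(19 / 50) : ℝ))) := by ring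
        _ = _ := by rw [h4]
    have k1' := key α β hab
    have k2 := key 0 1 zero_le_one
    have e : (∫ x in α..β, P 0 1 (x + y * I) (-x + y * w)) -
        (β - α) * ∫ x in (0 : ℝ)..1, P 0 1 (x + y * I) (-x + y * w) =
        ((∫ x in α..β, P 0 1 (x + y * I) (-x + y * w)) - (β - α : ℝ) * MM) -
        (β - α : ℝ) * ((∫ x in (0 : ℝ)..1, P 0 1 (x + y * I) (-x + y * w)) - (1 - 0 : ℝ) * MM) := by
      push_cast
      ring
    rw [e]
    refine (norm_sub_le _ _).trans ?_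
    rw [norm_mul, norm_real (β - α), Real.norm_eq_abs, abs_of_nonneg (by linarith)]
    have hE0 : 0 ≤ E := (norm_nonneg _).trans k2
    have h6 : (β - α) * ‖(∫ x in (0 : ℝ)..1, P 0 1 (x + y * I) (-x + y * w)) - (1 - 0 : ℝ) * MM‖ ≤
        1 * E := by
      have : β - α ≤ 1 := by linarith
      gcongr
    have h7 : 0 ≤ 4 * C2 * S ^ 2 * (y ^ (-kk k0 k1) * y ^ (3 / 25 : ℝ)) := by positivity
    calc _ ≤ E + 1 * E := add_le_add k1' h6
      _ = 2 * E := by ring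
      _ ≤ 2 * (8 * C1 * S ^ 2 * (y ^ (-kk k0 k1) * y ^ (3 / 25 : ℝ))) := by gcongr
      _ ≤ 2 * (8 * C1 * S ^ 2 * (y ^ (-kk k0 k1) * y ^ (3 / 25 : ℝ))) +
          4 * C2 * S ^ 2 * (y ^ (-kk k0 k1) * y ^ (3 / 25 : ℝ)) := by linarith
      _ = _ := by ring
  · -- the trivial range
    push Not at hyh
    have hb : ∀ x : ℝ, ‖P 0 1 (x + y * I) (-x + y * w)‖ ≤ C2 * y ^ (-kk k0 k1) :=
      fun x => ht x y w hy hw
    have h1 : ‖∫ x in α..β, P 0 1 (x + y * I) (-x + y * w)‖ ≤ C2 * y ^ (-kk k0 k1) * |β - α| :=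
      intervalIntegral.norm_integral_le_of_norm_le_const (fun x _ => hb x)
    have h2 : ‖∫ x in (0 : ℝ)..1, P 0 1 (x + y * I) (-x + y * w)‖ ≤ C2 * y ^ (-kk k0 k1) * |1 - 0| :=
      intervalIntegral.norm_integral_le_of_norm_le_const (fun x _ => hb x)
    rw [abs_of_nonneg (by linarith)] at h1
    rw [sub_zero, abs_one, mul_one] at h2
    have h3 : ‖((β : ℂ) - α) * ∫ x in (0 : ℝ)..1, P 0 1 (x + y * I) (-x + y * w)‖ ≤
        1 * (C2 * y ^ (-kk k0 k1)) := by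
      rw [norm_mul]
      have : ‖(β : ℂ) - α‖ ≤ 1 := by
        rw [← ofReal_sub, norm_real, Real.norm_eq_abs, abs_of_nonneg (by linarith)]
        linarith
      gcongr
    have h4 : C2 * y ^ (-kk k0 k1) * (β - α) ≤ C2 * y ^ (-kk k0 k1) * 1 := by
      have : β - α ≤ 1 := by linarith
      gcongr
    have h5 : (1 : ℝ) ≤ 2 * y ^ (3 / 25 : ℝ) := by
      have : (1 / 2 : ℝ) ≤ y ^ (3 / 25 : ℝ) := by
        calc (1 / 2 : ℝ) ≤ y := hyh.le
          _ = y ^ (1 : ℝ) := (Real.rpow_one _).symm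
          _ ≤ y ^ (3 / 25 : ℝ) := Real.rpow_le_rpow_of_exponent_ge hy hy1 (by norm_num)
      linarith
    refine (norm_sub_le _ _).trans ?_
    calc _ ≤ 2 * (C2 * y ^ (-kk k0 k1)) * (1 * 1) := by linarith
      _ ≤ 2 * (C2 * y ^ (-kk k0 k1)) * (S ^ 2 * (2 * y ^ (3 / 25 : ℝ))) := by gcongr
      _ = 4 * C2 * S ^ 2 * (y ^ (-kk k0 k1) * y ^ (3 / 25 : ℝ)) := by ring
      _ ≤ _ := by
        have : 0 ≤ 16 * C1 * S ^ 2 * (y ^ (-kk k0 k1) * y ^ (3 / 25 : ℝ)) := by positivity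
        linarith

end Pool.Agent.HL4
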