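import Mathlib

set_option maxHeartbeats 400000
open Complex Finset

namespace Pool.Agent.HL4

/-- clamp of `3t - 3/2` to `[0,1]` -/
noncomputable def pe (t : ℝ) : ℝ := max 0 (min 1 (3 * t - 3 / 2))

noncomputable def pterm (z : ℂ) (p : ℤ × ℤ) : ℝ :=
  if Int.gcd p.1 p.2 = 1 then pe (z.im / normSq ((p.1 : ℂ) * z + (p.2 : ℂ))) else 0

noncomputable def pE (z : ℂ) : ℝ := (1 / 2) * ∑' p : ℤ × ℤ, pterm z p

noncomputable def pw (z : ℂ) : ℝ := pe z.im / pE z

theorem pe_nonneg (t : ℝ) : 0 ≤ pe t := le_max_left _ _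

theorem pe_le_one (t : ℝ) : pe t ≤ 1 := max_le zero_le_one (min_le_left _ _)

theorem pe_zero {t : ℝ} (h : t ≤ 1 / 2) : pe t = 0 := by
  unfold pe
  rw [max_eq_left]
  exact (min_le_right _ _).trans (by linarith)

theorem pe_one {t : ℝ} (h : 5 / 6 ≤ t) : pe t = 1 := by
  unfold pe
  rw [min_eq_left (by linarith), max_eq_right zero_le_one]

theorem continuous_pe : Continuous pe := by
  unfold pe
  fun_prop

theorem pe_lip (s t : ℝ) : |pe s - pe t| ≤ 3 * |s - t| := by
  unfold pe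
  have h1 : |max 0 (min 1 (3 * s - 3 / 2)) - max 0 (min 1 (3 * t - 3 / 2))|
      ≤ |min 1 (3 * s - 3 / 2) - min 1 (3 * t - 3 / 2)| := by
    have := abs_max_sub_max_le_max 0 (min 1 (3 * s - 3 / 2)) 0 (min 1 (3 * t - 3 / 2))
    simpa using this
  have h2 : |min 1 (3 * s - 3 / 2) - min 1 (3 * t - 3 / 2)|
      ≤ |(3 * s - 3 / 2) - (3 * t - 3 / 2)| := by
    have := abs_min_sub_min_le_max 1 (3 * s - 3 / 2) 1 (3 * t - 3 / 2)
    simpa using this
  refine h1.trans (h2.trans (le_of_eq ?_))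
  rw [show (3 * s - 3 / 2) - (3 * t - 3 / 2) = 3 * (s - t) by ring, abs_mul]
  norm_num

theorem pterm_nonneg (z : ℂ) (p : ℤ × ℤ) : 0 ≤ pterm z p := by
  unfold pterm
  split_ifs
  · exact pe_nonneg _
  · exact le_rfl

theorem normSq_cd (z : ℂ) (c d : ℤ) :
    normSq ((c : ℂ) * z + (d : ℂ)) = ((c : ℝ) * z.re + d) ^ 2 + ((c : ℝ) * z.im) ^ 2 := by
  rw [normSq_apply]
  simp
  ring

/-- the support of a term -/
theorem pterm_supp {z : ℂ} (hz : 0 < z.im) {p : ℤ × ℤ} (h : pterm z p ≠ 0) :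
    Int.gcd p.1 p.2 = 1 ∧ ((p.1 : ℝ) * z.re + p.2) ^ 2 + ((p.1 : ℝ) * z.im) ^ 2 < 2 * z.im := by
  unfold pterm at h
  split_ifs at h with hg
  · refine ⟨hg, ?_⟩
    rw [normSq_cd] at h
    by_contra hcon
    push Not at hcon
    apply h
    apply pe_zero
    have h0 : 0 < ((p.1 : ℝ) * z.re + p.2) ^ 2 + ((p.1 : ℝ) * z.im) ^ 2 := by linarith
    rw [div_le_iff₀ h0]
    linarith
  · exact absurd rfl h

/-- finite box containing the support -/
theorem pterm_box {z : ℂ} (hz : 0 < z.im) {N L : ℕ} (hN : 2 ≤ ((N : ℝ) + 1) ^ 2 * z.im)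
    (hL : Real.sqrt (2 * z.im) + N * |z.re| ≤ L + 1) {p : ℤ × ℤ}
    (hp : p ∉ (Icc (-(N : ℤ)) N ×ˢ Icc (-(L : ℤ)) L : Finset (ℤ × ℤ))) : pterm z p = 0 := by
  by_contra h
  obtain ⟨-, h2⟩ := pterm_supp hz h
  apply hp
  have hc : |(p.1 : ℝ)| < (N : ℝ) + 1 := by
    have h3 : ((p.1 : ℝ) * z.im) ^ 2 < 2 * z.im := by nlinarith [sq_nonneg ((p.1 : ℝ) * z.re + p.2)]
    have h4 : (p.1 : ℝ) ^ 2 * z.im < 2 := by
      have : ((p.1 : ℝ) ^ 2 * z.im) * z.im < 2 * z.im := by nlinarith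
      exact lt_of_mul_lt_mul_right this hz.le
    have h5 : (p.1 : ℝ) ^ 2 < ((N : ℝ) + 1) ^ 2 := by
      have : (p.1 : ℝ) ^ 2 * z.im < ((N : ℝ) + 1) ^ 2 * z.im := lt_of_lt_of_le h4 hN
      exact lt_of_mul_lt_mul_right this hz.le
    exact abs_lt_of_sq_lt_sq h5 (by positivity)
  have hc' : |p.1| ≤ (N : ℤ) := by
    have : |p.1| < (N : ℤ) + 1 := by exact_mod_cast hc
    omega
  have hd : |(p.2 : ℝ)| < (L : ℝ) + 1 := by
    have h3 : ((p.1 : ℝ) * z.re + p.2) ^ 2 < 2 * z.im := by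
      nlinarith [sq_nonneg ((p.1 : ℝ) * z.im)]
    have h4 : |(p.1 : ℝ) * z.re + p.2| < Real.sqrt (2 * z.im) := by
      rw [← Real.sqrt_sq_eq_abs]
      exact Real.sqrt_lt_sqrt (sq_nonneg _) h3
    have h5 : |(p.1 : ℝ)| * |z.re| ≤ N * |z.re| := by
      apply mul_le_mul_of_nonneg_right _ (abs_nonneg _)
      exact_mod_cast hc'
    have h6 : |(p.2 : ℝ)| ≤ |(p.1 : ℝ) * z.re + p.2| + |(p.1 : ℝ)| * |z.re| := by
      rw [← abs_mul]
      have := abs_sub ((p.1 : ℝ) * z.re + p.2) ((p.1 : ℝ) * z.re)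
      simpa using this
    linarith
  have hd' : |p.2| ≤ (L : ℤ) := by
    have : |p.2| < (L : ℤ) + 1 := by exact_mod_cast hd
    omega
  rw [abs_le] at hc' hd'
  rw [mem_product, mem_Icc, mem_Icc]
  exact ⟨hc', hd'⟩

theorem pE_eq_box {z : ℂ} (hz : 0 < z.im) {N L : ℕ} (hN : 2 ≤ ((N : ℝ) + 1) ^ 2 * z.im)
    (hL : Real.sqrt (2 * z.im) + N * |z.re| ≤ L + 1) :
    pE z = (1 / 2) * ∑ p ∈ (Icc (-(N : ℤ)) N ×ˢ Icc (-(L : ℤ)) L : Finset (ℤ × ℤ)), pterm z p := by
  unfold pE
  rw [tsum_eq_sum]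
  intro p hp
  exact pterm_box hz hN hL hp

/-- standard box -/
theorem exists_box (K : ℝ) (hK : 1 ≤ K) : ∃ N L : ℕ, ∀ z : ℂ, 1 ≤ K * z.im → z.im ≤ K → |z.re| ≤ K →
    pE z = (1 / 2) * ∑ p ∈ (Icc (-(N : ℤ)) N ×ˢ Icc (-(L : ℤ)) L : Finset (ℤ × ℤ)), pterm z p := by
  obtain ⟨N, hN⟩ := exists_nat_ge (2 * K)
  obtain ⟨L, hL⟩ := exists_nat_ge (2 * K + N * K)
  refine ⟨N, L, fun z h1 h2 h3 => ?_⟩
  have hz : 0 < z.im := by
    by_contra hcon
    push Not at hcon
    nlinarith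
  apply pE_eq_box hz
  · have h4 : 2 * K ≤ ((N : ℝ) + 1) ^ 2 := by nlinarith
    calc (2 : ℝ) ≤ 2 * (K * z.im) := by linarith
      _ = (2 * K) * z.im := by ring
      _ ≤ _ := mul_le_mul_of_nonneg_right h4 hz.le
  · have h4 : Real.sqrt (2 * z.im) ≤ 2 * K := by
      rw [Real.sqrt_le_left (by linarith)]
      nlinarith
    have h5 : (N : ℝ) * |z.re| ≤ N * K := by gcongr
    linarith

theorem pterm_summable {z : ℂ} (hz : 0 < z.im) : Summable (pterm z) := by
  obtain ⟨N, hN⟩ := exists_nat_ge (2 / z.im)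
  obtain ⟨L, hL⟩ := exists_nat_ge (Real.sqrt (2 * z.im) + N * |z.re|)
  apply summable_of_ne_finset_zero
    (s := (Icc (-(N : ℤ)) N ×ˢ Icc (-(L : ℤ)) L : Finset (ℤ × ℤ)))
  intro p hp
  refine pterm_box hz ?_ (by linarith) hp
  have h1 : 2 / z.im ≤ ((N : ℝ) + 1) ^ 2 := by nlinarith [Nat.cast_nonneg (α := ℝ) N]
  rwa [div_le_iff₀ hz] at h1

theorem im_mob {a b c d : ℤ} (h : a * d - b * c = 1) {z : ℂ} (hz : 0 < z.im) :
    (((a : ℂ) * z + b) / ((c : ℂ) * z + d)).im = z.im / normSq ((c : ℂ) * z + d) ∧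
    0 < normSq ((c : ℂ) * z + d) := by
  have hpos : 0 < normSq ((c : ℂ) * z + d) := by
    rw [normSq_cd]
    by_cases hc : c = 0
    · subst hc
      have hd : (d : ℝ) ≠ 0 := by
        intro hd
        have : d = 0 := by exact_mod_cast hd
        subst this
        simp at h
      have : 0 < (d : ℝ) ^ 2 := by positivity
      simpa using this
    · have hc' : (c : ℝ) ≠ 0 := by exact_mod_cast hc
      have : 0 < ((c : ℝ) * z.im) ^ 2 := by
        have : (c : ℝ) * z.im ≠ 0 := mul_ne_zero hc' hz.ne'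
        positivity
      nlinarith [sq_nonneg ((c : ℝ) * z.re + d)]
  refine ⟨?_, hpos⟩
  have hh : (a : ℝ) * d - b * c = 1 := by exact_mod_cast h
  rw [div_im]
  have e1 : ((a : ℂ) * z + b).im = a * z.im := by simp
  have e2 : ((c : ℂ) * z + d).re = c * z.re + d := by simp
  have e3 : ((a : ℂ) * z + b).re = a * z.re + b := by simp
  have e4 : ((c : ℂ) * z + d).im = c * z.im := by simp
  rw [e1, e2, e3, e4, ← sub_div]
  congr 1
  linear_combination z.im * hh

theorem den_mob {a b c d : ℤ} (h : a * d - b * c = 1) {z : ℂ} (hz : 0 < z.im) (m n : ℤ) :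
    (m : ℂ) * (((a : ℂ) * z + b) / ((c : ℂ) * z + d)) + n =
      (((m * a + n * c : ℤ) : ℂ) * z + ((m * b + n * d : ℤ) : ℂ)) / ((c : ℂ) * z + d) := by
  have hpos := (im_mob h hz).2
  have hne : (c : ℂ) * z + d ≠ 0 := by
    intro h0
    rw [h0] at hpos
    simp at hpos
  rw [mul_div_assoc', div_add' _ _ _ hne]
  congr 1
  push_cast
  ring

theorem gcd_mob {a b c d : ℤ} (h : a * d - b * c = 1) (m n : ℤ) :
    Int.gcd (m * a + n * c) (m * b + n * d) = 1 ↔ Int.gcd m n = 1 := by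
  rw [← Int.isCoprime_iff_gcd_eq_one, ← Int.isCoprime_iff_gcd_eq_one]
  constructor
  · rintro ⟨u, v, huv⟩
    exact ⟨u * a + v * b, u * c + v * d, by linear_combination huv⟩
  · rintro ⟨u, v, huv⟩
    refine ⟨u * d - v * b, v * a - u * c, ?_⟩
    linear_combination (a * d - b * c) * huv + h

theorem pterm_mob {a b c d : ℤ} (h : a * d - b * c = 1) {z : ℂ} (hz : 0 < z.im) (m n : ℤ) :
    pterm (((a : ℂ) * z + b) / ((c : ℂ) * z + d)) (m, n) =
      pterm z (m * a + n * c, m * b + n * d) := by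
  unfold pterm
  simp only [gcd_mob h]
  obtain ⟨h1, h2⟩ := im_mob h hz
  rw [h1, den_mob h hz, map_div₀, div_div_div_cancel_right₀ h2.ne']

/-- the action on row vectors as a permutation -/
def pequiv {a b c d : ℤ} (h : a * d - b * c = 1) : ℤ × ℤ ≃ ℤ × ℤ where
  toFun p := (p.1 * a + p.2 * c, p.1 * b + p.2 * d)
  invFun p := (p.1 * d - p.2 * c, -p.1 * b + p.2 * a)
  left_inv p := by
    ext
    · simp only
      linear_combination p.1 * h
    · simp only
      linear_combination p.2 * h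
  right_inv p := by
    ext
    · simp only
      linear_combination p.1 * h
    · simp only
      linear_combination p.2 * h

theorem pE_mob {a b c d : ℤ} (h : a * d - b * c = 1) {z : ℂ} (hz : 0 < z.im) :
    pE (((a : ℂ) * z + b) / ((c : ℂ) * z + d)) = pE z := by
  unfold pE
  congr 1
  rw [← Equiv.tsum_eq (pequiv h) (pterm z)]
  apply tsum_congr
  rintro ⟨m, n⟩
  exact pterm_mob h hz m n

theorem pterm_neg (z : ℂ) (m n : ℤ) : pterm z (-m, -n) = pterm z (m, n) := by
  unfold pterm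
  simp only [Int.gcd_neg, Int.neg_gcd]
  congr 2
  push_cast
  rw [show -(m : ℂ) * z + -(n : ℂ) = -((m : ℂ) * z + n) by ring, normSq_neg]

theorem one_le_pE {z : ℂ} (hz : 0 < z.im) : 1 ≤ pE z := by
  obtain ⟨g, hg⟩ := ModularGroup.exists_smul_mem_fd (⟨z, hz⟩ : UpperHalfPlane)
  have h3 := ModularGroup.three_le_four_mul_im_sq_of_mem_fd hg
  set a := g 0 0
  set b := g 0 1
  set c := g 1 0
  set d := g 1 1
  have hdet : a * d - b * c = 1 := by
    have := g.det_coe
    rw [Matrix.det_fin_two] at this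
    exact this
  have him : (g • (⟨z, hz⟩ : UpperHalfPlane)).im = z.im / normSq ((c : ℂ) * z + d) := by
    rw [ModularGroup.im_smul_eq_div_normSq]
    congr 1
  rw [him] at h3
  have hpos := (im_mob hdet hz).2
  have h4 : 0 < z.im / normSq ((c : ℂ) * z + d) := div_pos hz hpos
  have h5 : 5 / 6 ≤ z.im / normSq ((c : ℂ) * z + d) := by nlinarith
  have hgcd : Int.gcd c d = 1 := by
    rw [← Int.isCoprime_iff_gcd_eq_one]
    exact ⟨-b, a, by linear_combination hdet⟩
  have ht : pterm z (c, d) = 1 := by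
    unfold pterm
    simp only [hgcd, if_true]
    exact pe_one h5
  have ht' : pterm z (-c, -d) = 1 := by rw [pterm_neg, ht]
  have hne : (c, d) ≠ (-c, -d) := by
    intro h
    have h1 : c = -c := congrArg Prod.fst h
    have h2 : d = -d := congrArg Prod.snd h
    have h1' : c = 0 := by omega
    have h2' : d = 0 := by omega
    rw [h1', h2'] at hgcd
    simp at hgcd
  have h6 : ∑ p ∈ ({(c, d), (-c, -d)} : Finset (ℤ × ℤ)), pterm z p ≤ ∑' p, pterm z p :=
    (pterm_summable hz).sum_le_tsum _ (fun p _ => pterm_nonneg z p)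
  rw [Finset.sum_pair hne, ht, ht'] at h6
  unfold pE
  linarith

theorem pw_nonneg {z : ℂ} (hz : 0 < z.im) : 0 ≤ pw z :=
  div_nonneg (pe_nonneg _) (zero_le_one.trans (one_le_pE hz))

theorem pw_le_one {z : ℂ} (hz : 0 < z.im) : pw z ≤ 1 := by
  unfold pw
  rw [div_le_one (lt_of_lt_of_le zero_lt_one (one_le_pE hz))]
  exact (pe_le_one _).trans (one_le_pE hz)

theorem pw_zero {z : ℂ} (h : z.im ≤ 1 / 2) : pw z = 0 := by
  unfold pw
  rw [pe_zero h, zero_div]

theorem pE_add_int {z : ℂ} (hz : 0 < z.im) (n : ℤ) : pE (z + n) = pE z := by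
  have := pE_mob (a := 1) (b := n) (c := 0) (d := 1) (by ring) hz
  simpa using this

theorem pw_add_int {z : ℂ} (hz : 0 < z.im) (n : ℤ) : pw (z + n) = pw z := by
  unfold pw
  rw [pE_add_int hz]
  simp

/-- the identity behind the unfolding -/
theorem pw_mob {c d a : ℤ} (hc : c ≠ 0) (h : c ∣ a * d - 1) {z : ℂ} (hz : 0 < z.im) :
    pw ((a : ℂ) / c - 1 / (c * ((c : ℂ) * z + d))) = pterm z (c, d) / pE z := by
  obtain ⟨b, hb⟩ := h
  have hdet : a * d - b * c = 1 := by linear_combination hb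
  have hpos := (im_mob hdet hz).2
  have hne : (c : ℂ) * z + d ≠ 0 := by
    intro h0
    rw [h0] at hpos
    simp at hpos
  have hcc : (c : ℂ) ≠ 0 := by exact_mod_cast hc
  have hdet' : (a : ℂ) * d - b * c = 1 := by exact_mod_cast hdet
  have he : (a : ℂ) / c - 1 / (c * ((c : ℂ) * z + d)) = ((a : ℂ) * z + b) / ((c : ℂ) * z + d) := by
    field_simp
    linear_combination hdet'
  have hgcd : Int.gcd c d = 1 := by
    rw [← Int.isCoprime_iff_gcd_eq_one]
    exact ⟨-b, a, by linear_combination hdet⟩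
  rw [he]
  unfold pw
  rw [pE_mob hdet hz, (im_mob hdet hz).1]
  unfold pterm
  simp only [hgcd, if_true]

theorem pterm_lip {z : ℂ} (hz : 1 / 2 ≤ z.im) (u : ℝ) (p : ℤ × ℤ) :
    |pterm (z + u) p - pterm z p| ≤ 12 * |u| := by
  have hz0 : 0 < z.im := by linarith
  unfold pterm
  split_ifs with hg
  swap
  · simp only [sub_self, abs_zero]; positivity
  refine (pe_lip _ _).trans ?_
  rw [normSq_cd, normSq_cd]
  have him : (z + (u : ℂ)).im = z.im := by simp
  have hre : (z + (u : ℂ)).re = z.re + u := by simp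
  rw [him, hre]
  by_cases hc : p.1 = 0
  · rw [hc]
    simp only [Int.cast_zero, zero_mul, zero_add, sub_self, abs_zero, mul_zero]
    positivity
  have hc1 : (1 : ℝ) ≤ |(p.1 : ℝ)| := by
    have : (1 : ℤ) ≤ |p.1| := Int.one_le_abs hc
    exact_mod_cast this
  set v : ℝ := (p.1 : ℝ) * z.re + p.2 with hv
  set v' : ℝ := (p.1 : ℝ) * (z.re + u) + p.2 with hv'
  set s : ℝ := |(p.1 : ℝ)| * z.im with hs
  have hs2 : ((p.1 : ℝ) * z.im) ^ 2 = s ^ 2 := by
    rw [hs, mul_pow, mul_pow, sq_abs]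
  rw [hs2]
  have hs0 : 1 / 2 ≤ s := by
    rw [hs]; nlinarith
  have hspos : 0 < s := by linarith
  have hvv : v' - v = (p.1 : ℝ) * u := by rw [hv, hv']; ring
  have hA : 0 < v ^ 2 + s ^ 2 := by positivity
  have hA' : 0 < v' ^ 2 + s ^ 2 := by positivity
  have key : z.im / (v' ^ 2 + s ^ 2) - z.im / (v ^ 2 + s ^ 2) =
      -(z.im * (v' - v) * (v' + v)) / ((v' ^ 2 + s ^ 2) * (v ^ 2 + s ^ 2)) := by
    field_simp
    ring
  rw [key, abs_div, abs_neg, abs_mul, abs_mul, hvv, abs_mul,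
    abs_of_pos (mul_pos hA' hA), abs_of_pos hz0]
  have h1 : |v' + v| * s ^ 3 ≤ (v' ^ 2 + s ^ 2) * (v ^ 2 + s ^ 2) := by
    have h2 : |v' + v| ≤ |v'| + |v| := abs_add_le _ _
    have h3 : |v'| * s ≤ (v' ^ 2 + s ^ 2) / 2 := by
      have := sq_nonneg (|v'| - s)
      rw [sub_sq, sq_abs] at this
      linarith
    have h4 : |v| * s ≤ (v ^ 2 + s ^ 2) / 2 := by
      have := sq_nonneg (|v| - s)
      rw [sub_sq, sq_abs] at this
      linarith
    have h5 : s ^ 2 ≤ v ^ 2 + s ^ 2 := by nlinarith [sq_nonneg v]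
    have h6 : s ^ 2 ≤ v' ^ 2 + s ^ 2 := by nlinarith [sq_nonneg v']
    calc |v' + v| * s ^ 3 ≤ (|v'| + |v|) * s ^ 3 := by gcongr
      _ = (|v'| * s) * s ^ 2 + (|v| * s) * s ^ 2 := by ring
      _ ≤ ((v' ^ 2 + s ^ 2) / 2) * (v ^ 2 + s ^ 2) + ((v ^ 2 + s ^ 2) / 2) * (v' ^ 2 + s ^ 2) := by
          gcongr
      _ = _ := by ring
  have h7 : z.im * (|(p.1 : ℝ)| * |u|) * |v' + v| / ((v' ^ 2 + s ^ 2) * (v ^ 2 + s ^ 2)) ≤ 4 * |u| := by
    rw [div_le_iff₀ (mul_pos hA' hA)]
    have h8 : z.im * |(p.1 : ℝ)| ≤ 4 * s ^ 3 := by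
      rw [mul_comm, ← hs]
      nlinarith [sq_nonneg (s - 1 / 2), mul_pos hspos hspos]
    calc z.im * (|(p.1 : ℝ)| * |u|) * |v' + v| = (z.im * |(p.1 : ℝ)|) * (|u| * |v' + v|) := by ring
      _ ≤ (4 * s ^ 3) * (|u| * |v' + v|) := by gcongr
      _ = 4 * |u| * (|v' + v| * s ^ 3) := by ring
      _ ≤ _ := by gcongr
  linarith

theorem pE_lip : ∃ C : ℝ, 0 ≤ C ∧ ∀ z : ℂ, 1 / 2 ≤ z.im → ∀ u : ℝ, |u| ≤ 1 →
    |pE (z + u) - pE z| ≤ C * |u| := by
  obtain ⟨N, L, hNL⟩ := exists_box 2 (by norm_num)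
  refine ⟨6 * ((Icc (-(N : ℤ)) N ×ˢ Icc (-(L : ℤ)) L : Finset (ℤ × ℤ)).card : ℝ), by positivity,
    fun z hz u hu => ?_⟩
  have hz0 : 0 < z.im := by linarith
  -- the large range
  have hbig : ∀ w : ℂ, 2 < w.im → pE w = 1 := by
    intro w hw
    have hw0 : 0 < w.im := by linarith
    have : ∀ p : ℤ × ℤ, p ∉ ({(0, 1), (0, -1)} : Finset (ℤ × ℤ)) → pterm w p = 0 := by
      intro p hp
      by_contra h
      obtain ⟨h1, h2⟩ := pterm_supp hw0 h
      have hc : p.1 = 0 := by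
        by_contra hc
        have hc1 : (1 : ℝ) ≤ (p.1 : ℝ) ^ 2 := by
          have : (1 : ℤ) ≤ p.1 ^ 2 := by
            have := sq_pos_of_ne_zero hc
            omega
          exact_mod_cast this
        have : (w.im) ^ 2 ≤ (p.1 : ℝ) ^ 2 * w.im ^ 2 := by nlinarith [sq_nonneg w.im]
        nlinarith [sq_nonneg ((p.1 : ℝ) * w.re + p.2)]
      apply hp
      rw [hc] at h1
      rw [Int.gcd_zero_left] at h1
      have h3 : p.2 = 1 ∨ p.2 = -1 := by omega
      rcases h3 with h3 | h3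
      · simp [Prod.ext_iff, hc, h3]
      · simp [Prod.ext_iff, hc, h3]
    unfold pE
    rw [tsum_eq_sum this, Finset.sum_pair (by decide)]
    unfold pterm
    simp only [Int.gcd_zero_left, Int.natAbs_one, Int.natAbs_neg, if_true, Int.cast_zero, zero_mul,
      zero_add, Int.cast_one, Int.cast_neg, normSq_neg, map_one, div_one]
    rw [pe_one (by linarith)]
    norm_num
  by_cases hz2 : 2 < z.im
  · rw [hbig z hz2, hbig (z + u) (by simpa using hz2)]
    simp only [sub_self, abs_zero]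
    positivity
  push Not at hz2
  -- reduce to a bounded real part
  set n : ℤ := ⌊z.re⌋ with hn
  set z' : ℂ := z + ((-n : ℤ) : ℂ) with hz'
  have him : z'.im = z.im := by rw [hz']; simp
  have hre : z'.re = z.re - n := by rw [hz']; simp; ring
  have hre0 : 0 ≤ z'.re := by rw [hre]; linarith [Int.floor_le z.re]
  have hre1 : z'.re ≤ 1 := by rw [hre]; linarith [Int.lt_floor_add_one z.re]
  have e1 : pE z = pE z' := by rw [hz', pE_add_int hz0]
  have e2 : pE (z + u) = pE (z' + u) := by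
    have : z' + u = (z + u) + ((-n : ℤ) : ℂ) := by rw [hz']; ring
    rw [this, pE_add_int (by simpa using hz0)]
  rw [abs_le] at hu
  have e3 := hNL z' (by rw [him]; linarith) (by rw [him]; linarith)
    (by rw [abs_le]; constructor <;> linarith)
  have e4 := hNL (z' + u) (by simp only [add_im, ofReal_im, add_zero]; rw [him]; linarith)
    (by simp only [add_im, ofReal_im, add_zero]; rw [him]; linarith)
    (by simp only [add_re, ofReal_re]; rw [abs_le]; constructor <;> linarith)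
  rw [e1, e2, e3, e4, ← mul_sub, ← Finset.sum_sub_distrib, abs_mul]
  have h5 : |∑ p ∈ (Icc (-(N : ℤ)) N ×ˢ Icc (-(L : ℤ)) L : Finset (ℤ × ℤ)),
      (pterm (z' + u) p - pterm z' p)| ≤
      ((Icc (-(N : ℤ)) N ×ˢ Icc (-(L : ℤ)) L : Finset (ℤ × ℤ)).card : ℝ) * (12 * |u|) := by
    refine (Finset.abs_sum_le_sum_abs _ _).trans ?_
    refine (Finset.sum_le_card_nsmul _ _ (12 * |u|) ?_).trans (le_of_eq ?_)
    · intro p _
      exact pterm_lip (by rw [him]; exact hz) u p
    · rw [nsmul_eq_mul]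
  rw [show |(1 / 2 : ℝ)| = 1 / 2 by norm_num]
  nlinarith [h5]

theorem pw_lip : ∃ C : ℝ, 0 ≤ C ∧ ∀ z : ℂ, 0 < z.im → ∀ u : ℝ, |pw (z + u) - pw z| ≤ C * |u| := by
  obtain ⟨C, hC0, hC⟩ := pE_lip
  refine ⟨C + 1, by linarith, fun z hz u => ?_⟩
  have hz' : 0 < (z + (u : ℂ)).im := by simpa using hz
  by_cases h1 : z.im ≤ 1 / 2
  · rw [pw_zero h1, pw_zero (by simpa using h1)]
    simp only [sub_self, abs_zero]
    positivity
  push Not at h1
  by_cases hu : |u| ≤ 1
  · have hE := one_le_pE hz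
    have hE' := one_le_pE hz'
    have e : pw (z + u) - pw z = pe z.im * (pE z - pE (z + u)) / (pE (z + u) * pE z) := by
      unfold pw
      have him : (z + (u : ℂ)).im = z.im := by simp
      rw [him]
      have n1 : pE z ≠ 0 := by linarith
      have n2 : pE (z + u) ≠ 0 := by linarith
      field_simp
    rw [e, abs_div, abs_mul, abs_of_nonneg (pe_nonneg _),
      abs_of_pos (by positivity : 0 < pE (z + u) * pE z)]
    rw [div_le_iff₀ (by positivity)]
    have h2 := hC z h1.le u hu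
    rw [abs_sub_comm] at h2
    have h3 : pe z.im * |pE z - pE (z + u)| ≤ C * |u| :=
      (mul_le_of_le_one_left (abs_nonneg _) (pe_le_one _)).trans h2
    have h4 : (1 : ℝ) ≤ pE (z + u) * pE z := by nlinarith
    calc pe z.im * |pE z - pE (z + u)| ≤ C * |u| := h3
      _ ≤ (C + 1) * |u| * 1 := by nlinarith [abs_nonneg u]
      _ ≤ _ := by gcongr
  · push Not at hu
    have h2 : |pw (z + u) - pw z| ≤ 1 := by
      rw [abs_le]
      constructor <;> linarith [pw_nonneg hz, pw_nonneg hz', pw_le_one hz, pw_le_one hz']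
    nlinarith

theorem pE_cont : ContinuousOn pE {z : ℂ | 0 < z.im} := by
  intro z hz
  have hz : 0 < z.im := hz
  apply ContinuousAt.continuousWithinAt
  set K : ℝ := 1 + 2 / z.im + 2 * z.im + |z.re| with hK
  have hq : 0 < 2 / z.im := by positivity
  obtain ⟨N, L, hNL⟩ := exists_box K (by rw [hK]; linarith [abs_nonneg z.re])
  have hev : ∀ᶠ w : ℂ in nhds z, z.im / 2 < w.im ∧ w.im < 2 * z.im ∧ |w.re - z.re| < 1 := by
    have c1 : ContinuousAt (fun w : ℂ => w.im) z := continuous_im.continuousAt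
    have c2 : ContinuousAt (fun w : ℂ => |w.re - z.re|) z := by fun_prop
    have h1 := c1.eventually (lt_mem_nhds (show z.im / 2 < z.im by linarith))
    have h2 := c1.eventually (gt_mem_nhds (show z.im < 2 * z.im by linarith))
    have h3 := c2.eventually (gt_mem_nhds (show |z.re - z.re| < 1 by simp))
    filter_upwards [h1, h2, h3] with w a b c using ⟨a, b, c⟩
  have hev2 : pE =ᶠ[nhds z] fun w => (1 / 2) *
      ∑ p ∈ (Icc (-(N : ℤ)) N ×ˢ Icc (-(L : ℤ)) L : Finset (ℤ × ℤ)), pterm w p := by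
    filter_upwards [hev] with w hw
    obtain ⟨h1, h2, h3⟩ := hw
    apply hNL
    · have h4 : 2 / z.im ≤ K := by rw [hK]; linarith [abs_nonneg z.re]
      have h5 : 0 < w.im := by linarith
      calc (1 : ℝ) = (2 / z.im) * (z.im / 2) := by field_simp
        _ ≤ K * w.im := by gcongr
    · rw [hK]; linarith [abs_nonneg z.re]
    · have h4 : |w.re| ≤ |w.re - z.re| + |z.re| := by
        have := abs_add_le (w.re - z.re) z.re
        simpa using this
      rw [hK]; linarith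
  refine ContinuousAt.congr ?_ hev2.symm
  apply ContinuousAt.mul continuousAt_const
  apply tendsto_finsetSum
  intro p _
  show ContinuousAt (fun w => pterm w p) z
  unfold pterm
  split_ifs with hg
  · apply continuous_pe.continuousAt.comp
    apply ContinuousAt.div
    · exact continuous_im.continuousAt
    · exact (continuous_normSq.comp (by fun_prop : Continuous fun w : ℂ => (p.1 : ℂ) * w + p.2)).continuousAt
    · rw [normSq_cd]
      intro h0
      have h1 : (p.1 : ℝ) * z.im = 0 := by nlinarith [sq_nonneg ((p.1 : ℝ) * z.im), sq_nonneg ((p.1 : ℝ) * z.re + p.2)]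
      have h2 : (p.1 : ℝ) = 0 := by
        rcases mul_eq_zero.mp h1 with h | h
        · exact h
        · exact absurd h hz.ne'
      have h3 : (p.2 : ℝ) = 0 := by
        rw [h2] at h0
        simpa using h0
      have h4 : p.1 = 0 := by exact_mod_cast h2
      have h5 : p.2 = 0 := by exact_mod_cast h3
      rw [h4, h5] at hg
      simp at hg
  · exact continuousAt_const

theorem pw_cont : ContinuousOn pw {z : ℂ | 0 < z.im} := by
  unfold pw
  apply ContinuousOn.div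
  · exact (continuous_pe.comp continuous_im).continuousOn
  · exact pE_cont
  · intro z hz
    have := one_le_pE (z := z) hz
    linarith

/-- the unfolding of `pE` below height 1/2 -/
theorem pE_unfold {z : ℂ} (hz : 0 < z.im) (hz2 : z.im ≤ 1 / 2) {N L : ℕ}
    (hN : 2 ≤ ((N : ℝ) + 1) ^ 2 * z.im) (hL : N * |z.re| ≤ L) :
    ∑ c ∈ Icc (1 : ℕ) N, ∑ d ∈ Icc (-(L : ℤ)) L, pterm z ((c : ℤ), d) = pE z := by
  have hs : Real.sqrt (2 * z.im) ≤ 1 := by
    rw [Real.sqrt_le_left zero_le_one]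
    linarith
  rw [pE_eq_box hz hN (L := L) (by linarith), Finset.sum_product]
  set g : ℤ → ℝ := fun c => ∑ d ∈ Icc (-(L : ℤ)) L, pterm z (c, d) with hg
  have hneg : ∀ c, g (-c) = g c := by
    intro c
    rw [hg]
    simp only
    refine Finset.sum_bij' (fun d _ => -d) (fun d _ => -d) ?_ ?_ ?_ ?_ ?_
    · intro d hd; rw [mem_Icc] at hd ⊢; constructor <;> omega
    · intro d hd; rw [mem_Icc] at hd ⊢; constructor <;> omega
    · intro d _; ring
    · intro d _; ring
    · intro d _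
      rw [← pterm_neg z c (-d), neg_neg]
  have h0 : g 0 = 0 := by
    rw [hg]
    apply Finset.sum_eq_zero
    intro d _
    by_contra h
    obtain ⟨h1, h2⟩ := pterm_supp hz h
    simp only [Int.gcd_zero_left] at h1
    have h3 : (d : ℝ) ^ 2 = 1 := by
      have : d = 1 ∨ d = -1 := by omega
      rcases this with h | h <;> rw [h] <;> norm_num
    simp only [Int.cast_zero, zero_mul, zero_add] at h2
    rw [h3] at h2
    nlinarith
  have hsum : ∑ c ∈ Icc (-(N : ℤ)) N, g c = 2 * ∑ c ∈ Icc (1 : ℕ) N, g (c : ℤ) := by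
    clear hN hL
    induction N with
    | zero => simp [h0]
    | succ n ih =>
      have e1 : Icc (-((n + 1 : ℕ) : ℤ)) ((n + 1 : ℕ) : ℤ) =
          insert (-((n + 1 : ℕ) : ℤ)) (insert ((n + 1 : ℕ) : ℤ) (Icc (-(n : ℤ)) n)) := by
        ext x
        simp only [mem_Icc, mem_insert]
        push_cast
        omega
      rw [e1, Finset.sum_insert, Finset.sum_insert, ih, hneg, Finset.sum_Icc_succ_top (by omega)]
      · ring
      · simp only [mem_Icc]
        push_cast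
        omega
      · simp only [mem_insert, mem_Icc]
        push_cast
        omega
  rw [hsum]
  rw [hg]
  ring

end Pool.Agent.HL4
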