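import Pool.Agent.Lib_helper68.HL4.Defs
import Pool.Agent.Lib_helper24.HL4.PU

set_option maxHeartbeats 400000
open Complex Finset

namespace Pool.Agent.HL4

/-! ### the Cauchy estimate -/

theorem plip_diff {M k0 k1 : ℕ} {P : ZMod M → ZMod M → ℂ → ℂ → ℂ} (h : PF M k0 k1 P)
    (x y : ZMod M) {Z W : ℂ} {s : ℂ} (hZ : 0 < (Z + s).im) (hW : 0 < (W - s).im) :
    DifferentiableAt ℂ (fun s : ℂ => P x y (Z + s) (W - s)) s := by
  have hopen : IsOpen {p : ℂ × ℂ | 0 < p.1.im ∧ 0 < p.2.im} := by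
    apply IsOpen.and
    · exact isOpen_lt continuous_const (continuous_im.comp continuous_fst)
    · exact isOpen_lt continuous_const (continuous_im.comp continuous_snd)
  have h1 : DifferentiableAt ℂ (fun p : ℂ × ℂ => P x y p.1 p.2) (Z + s, W - s) :=
    (h.holo x y).differentiableAt (hopen.mem_nhds ⟨hZ, hW⟩)
  have h2 : DifferentiableAt ℂ (fun s : ℂ => ((Z + s, W - s) : ℂ × ℂ)) s := by fun_prop
  exact h1.comp s h2

theorem plip {M k0 k1 : ℕ} {P : ZMod M → ZMod M → ℂ → ℂ → ℂ} (h : PF M k0 k1 P) :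
    ∃ C : ℝ, 0 ≤ C ∧ ∀ (x y : ZMod M) (Z W : ℂ), 0 < Z.im → 0 < W.im → ∀ s : ℝ,
      ‖P x y (Z + s) (W - s) - P x y Z W‖ ≤
        C * Z.im ^ (-((k0 : ℝ) / 2)) * W.im ^ (-((k1 : ℝ) / 2)) * (1 / Z.im + 1 / W.im) * |s| := by
  obtain ⟨C, hC0, hC⟩ := h.bdd
  set D : ℝ := 2 * (C * (1 / 2 : ℝ) ^ (-((k0 : ℝ) / 2)) * (1 / 2 : ℝ) ^ (-((k1 : ℝ) / 2))) with hD
  have hD0 : 0 ≤ D := by rw [hD]; positivity
  refine ⟨D, hD0, fun x y Z W hZ hW s => ?_⟩
  set ρ : ℝ := min Z.im W.im / 2 with hρ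
  have hmin : 0 < min Z.im W.im := lt_min hZ hW
  have hρ0 : 0 < ρ := by rw [hρ]; linarith
  have hρZ : ρ ≤ Z.im / 2 := by rw [hρ]; linarith [min_le_left Z.im W.im]
  have hρW : ρ ≤ W.im / 2 := by rw [hρ]; linarith [min_le_right Z.im W.im]
  set φ : ℂ → ℂ := fun s : ℂ => P x y (Z + s) (W - s) with hφ
  have him : ∀ s0 : ℂ, s0.im = 0 → ∀ s1 : ℂ, ‖s1 - s0‖ ≤ ρ →
      Z.im / 2 ≤ (Z + s1).im ∧ W.im / 2 ≤ (W - s1).im := by
    intro s0 h0 s1 h1
    have h2 : |s1.im| ≤ ρ := by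
      have := (abs_im_le_norm (s1 - s0)).trans h1
      rwa [sub_im, h0, sub_zero] at this
    rw [abs_le] at h2
    rw [add_im, sub_im]
    constructor <;> linarith
  have hbound : ∀ s0 : ℂ, s0.im = 0 → ‖deriv φ s0‖ ≤
      (C * (Z.im / 2) ^ (-((k0 : ℝ) / 2)) * (W.im / 2) ^ (-((k1 : ℝ) / 2))) / ρ := by
    intro s0 h0
    apply norm_deriv_le_of_forall_mem_sphere_norm_le hρ0
    · apply DifferentiableOn.diffContOnCl_ball (U := Metric.closedBall s0 ρ) _ subset_rfl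
      intro s1 h1
      rw [Metric.mem_closedBall, dist_eq_norm] at h1
      obtain ⟨h2, h3⟩ := him s0 h0 s1 h1
      exact (plip_diff h x y (by linarith) (by linarith)).differentiableWithinAt
    · intro s1 h1
      rw [mem_sphere_iff_norm] at h1
      obtain ⟨h2, h3⟩ := him s0 h0 s1 h1.le
      refine (hC x y _ _ (by linarith) (by linarith)).trans ?_
      have h4 : (Z + s1).im ^ (-((k0 : ℝ) / 2)) ≤ (Z.im / 2) ^ (-((k0 : ℝ) / 2)) :=
        Real.rpow_le_rpow_of_nonpos (by linarith) h2 (by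
          have : (0 : ℝ) ≤ k0 := Nat.cast_nonneg _
          linarith)
      have h5 : (W - s1).im ^ (-((k1 : ℝ) / 2)) ≤ (W.im / 2) ^ (-((k1 : ℝ) / 2)) :=
        Real.rpow_le_rpow_of_nonpos (by linarith) h3 (by
          have : (0 : ℝ) ≤ k1 := Nat.cast_nonneg _
          linarith)
      have h6 : 0 ≤ (W - s1).im ^ (-((k1 : ℝ) / 2)) := Real.rpow_nonneg (by linarith) _
      gcongr
  have hconv : Convex ℝ {s : ℂ | s.im = 0} := by
    intro a ha b hb u v _ _ _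
    have ha' : a.im = 0 := ha
    have hb' : b.im = 0 := hb
    show (u • a + v • b).im = 0
    simp [ha', hb']
  have hmv := Convex.norm_image_sub_le_of_norm_deriv_le (𝕜 := ℂ) (f := φ) (s := {s : ℂ | s.im = 0})
    (x := 0) (y := (s : ℂ)) (C := (C * (Z.im / 2) ^ (-((k0 : ℝ) / 2)) *
      (W.im / 2) ^ (-((k1 : ℝ) / 2))) / ρ) (by
      intro s0 h0
      have h0' : s0.im = 0 := h0
      obtain ⟨h2, h3⟩ := him s0 h0' s0 (by simp [hρ0.le])
      exact plip_diff h x y (by linarith) (by linarith)) (fun s0 h0 => hbound s0 h0) hconv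
      (by simp) (by simp)
  simp only [hφ, add_zero, sub_zero, norm_real, Real.norm_eq_abs] at hmv
  refine hmv.trans ?_
  apply mul_le_mul_of_nonneg_right _ (abs_nonneg _)
  have e1 : (Z.im / 2) ^ (-((k0 : ℝ) / 2)) = (1 / 2 : ℝ) ^ (-((k0 : ℝ) / 2)) * Z.im ^ (-((k0 : ℝ) / 2)) := by
    rw [← Real.mul_rpow (by norm_num) hZ.le]
    congr 1
    ring
  have e2 : (W.im / 2) ^ (-((k1 : ℝ) / 2)) = (1 / 2 : ℝ) ^ (-((k1 : ℝ) / 2)) * W.im ^ (-((k1 : ℝ) / 2)) := by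
    rw [← Real.mul_rpow (by norm_num) hW.le]
    congr 1
    ring
  have e3 : 1 / ρ ≤ 2 * (1 / Z.im + 1 / W.im) := by
    rcases min_choice Z.im W.im with h' | h'
    · rw [hρ, h']
      have : 0 < 1 / W.im := by positivity
      have e : 1 / (Z.im / 2) = 2 * (1 / Z.im) := by field_simp
      rw [e]; linarith
    · rw [hρ, h']
      have : 0 < 1 / Z.im := by positivity
      have e : 1 / (W.im / 2) = 2 * (1 / W.im) := by field_simp
      rw [e]; linarith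
  rw [e1, e2, div_eq_mul_one_div]
  calc C * ((1 / 2 : ℝ) ^ (-((k0 : ℝ) / 2)) * Z.im ^ (-((k0 : ℝ) / 2))) *
        ((1 / 2 : ℝ) ^ (-((k1 : ℝ) / 2)) * W.im ^ (-((k1 : ℝ) / 2))) * (1 / ρ)
      ≤ C * ((1 / 2 : ℝ) ^ (-((k0 : ℝ) / 2)) * Z.im ^ (-((k0 : ℝ) / 2))) *
        ((1 / 2 : ℝ) ^ (-((k1 : ℝ) / 2)) * W.im ^ (-((k1 : ℝ) / 2))) *
        (2 * (1 / Z.im + 1 / W.im)) := by
        have := Real.rpow_nonneg hZ.le (-((k0 : ℝ) / 2))
        have := Real.rpow_nonneg hW.le (-((k1 : ℝ) / 2))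
        gcongr
    _ = _ := by rw [hD]; ring

/-! ### the terms -/

noncomputable def cz (c : ℕ) (t y : ℝ) : ℂ := -1 / ((c : ℂ) ^ 2 * (t + y * I))

noncomputable def cw (c : ℕ) (t y : ℝ) (w : ℂ) : ℂ := 1 / ((c : ℂ) ^ 2 * (t - y * w))

noncomputable def cg {M : ℕ} (P : ZMod M → ZMod M → ℂ → ℂ → ℂ) (k0 k1 c : ℕ) (y : ℝ) (w : ℂ)
    (t : ℝ) (a : ℤ) : ℂ :=
  (((c : ℂ) * (t + y * I))⁻¹ ^ k0 * ((c : ℂ) * (t - y * w))⁻¹ ^ k1) *
    (P (-(c : ZMod M)) (a : ZMod M) ((a : ℂ) / c + cz c t y) (-((a : ℂ) / c) + cw c t y w) *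
      (pw ((a : ℂ) / c + cz c t y) : ℂ))

theorem ct_ns (c : ℕ) (t y : ℝ) :
    normSq ((c : ℂ) * (t + y * I)) = (c : ℝ) ^ 2 * (t ^ 2 + y ^ 2) := by
  rw [map_mul, normSq_natCast, normSq_apply]
  simp
  ring

theorem ct_pos {c : ℕ} (hc : 0 < c) (t : ℝ) {y : ℝ} (hy : 0 < y) :
    0 < normSq ((c : ℂ) * (t + y * I)) := by
  rw [ct_ns]
  positivity

theorem ct_posw {c : ℕ} (hc : 0 < c) (t : ℝ) {y : ℝ} (hy : 0 < y) {w : ℂ} (hw : 0 < w.im) :
    0 < normSq ((c : ℂ) * (t - y * w)) := by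
  rw [normSq_pos]
  apply mul_ne_zero
  · exact_mod_cast hc.ne'
  · intro h0
    have := congrArg im h0
    simp only [sub_im, ofReal_im, mul_im, ofReal_re, zero_mul, add_zero, zero_im, zero_sub,
      neg_eq_zero] at this
    exact (mul_pos hy hw).ne' this

theorem cz_im {c : ℕ} (hc : 0 < c) (t : ℝ) {y : ℝ} :
    (cz c t y).im = y / normSq ((c : ℂ) * (t + y * I)) := by
  have hcr : (c : ℝ) ≠ 0 := by exact_mod_cast hc.ne'
  have e : cz c t y = ((-1 / c : ℝ) : ℂ) * ((c : ℂ) * (t + y * I))⁻¹ := by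
    unfold cz
    push_cast
    simp only [div_eq_mul_inv, mul_inv, pow_two]
    ring
  rw [e, im_ofReal_mul, inv_im]
  have e2 : ((c : ℂ) * (t + y * I)).im = c * y := by simp
  rw [e2]
  field_simp

theorem cw_im {c : ℕ} (hc : 0 < c) (t : ℝ) {y : ℝ} (w : ℂ) :
    (cw c t y w).im = y * w.im / normSq ((c : ℂ) * (t - y * w)) := by
  have hcr : (c : ℝ) ≠ 0 := by exact_mod_cast hc.ne'
  have e : cw c t y w = ((1 / c : ℝ) : ℂ) * ((c : ℂ) * (t - y * w))⁻¹ := by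
    unfold cw
    push_cast
    simp only [div_eq_mul_inv, mul_inv, pow_two]
    ring
  rw [e, im_ofReal_mul, inv_im]
  have e2 : ((c : ℂ) * (t - y * w)).im = -(c * (y * w.im)) := by simp
  rw [e2]
  field_simp

theorem cz_im_pos {c : ℕ} (hc : 0 < c) (t : ℝ) {y : ℝ} (hy : 0 < y) : 0 < (cz c t y).im := by
  rw [cz_im hc]
  exact div_pos hy (ct_pos hc t hy)

theorem cw_im_pos {c : ℕ} (hc : 0 < c) (t : ℝ) {y : ℝ} (hy : 0 < y) {w : ℂ} (hw : 0 < w.im) :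
    0 < (cw c t y w).im := by
  rw [cw_im hc]
  exact div_pos (mul_pos hy hw) (ct_posw hc t hy hw)

theorem ac_im (a : ℤ) (c : ℕ) : ((a : ℂ) / c).im = 0 := by
  have : (a : ℂ) / c = (((a : ℝ) / c : ℝ) : ℂ) := by push_cast; rfl
  rw [this, ofReal_im]

theorem cZ_im (a : ℤ) (c : ℕ) (t y : ℝ) : ((a : ℂ) / c + cz c t y).im = (cz c t y).im := by
  rw [add_im, ac_im, zero_add]

theorem cW_im (a : ℤ) (c : ℕ) (t y : ℝ) (w : ℂ) :
    (-((a : ℂ) / c) + cw c t y w).im = (cw c t y w).im := by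
  rw [add_im, neg_im, ac_im, neg_zero, zero_add]

theorem ct_aux {a b c d W D : ℂ} (hc : c ≠ 0) (hD : D ≠ 0) (hDe : D = -c * W + d)
    (h : a * d - b * c = 1) : -(a / c) + 1 / (c * D) = (a * W - b) / D := by
  field_simp
  linear_combination (-1) * h - a * hDe

theorem ct_aux2 (m n p q : ℂ) (hm : m ≠ 0) (hn : n ≠ 0) : p * q = m⁻¹ * n⁻¹ * (m * n * p * q) := by
  field_simp

/-- the term identity -/
theorem ct_id {M k0 k1 : ℕ} {P : ZMod M → ZMod M → ℂ → ℂ → ℂ} (h : PF M k0 k1 P) {c : ℕ}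
    (hc : 0 < c) {a d : ℤ} (had : (c : ℤ) ∣ a * d - 1) (x : ℝ) {y : ℝ} (hy : 0 < y) {w : ℂ}
    (hw : 0 < w.im) :
    P 0 1 (x + y * I) (-x + y * w) *
      ((pterm ((x : ℂ) + y * I) ((c : ℤ), d) / pE ((x : ℂ) + y * I) : ℝ) : ℂ) =
      cg P k0 k1 c y w (x + d / c) a := by
  have hcz : ((c : ℕ) : ℤ) ≠ 0 := by exact_mod_cast hc.ne'
  have hcc : (c : ℂ) ≠ 0 := by exact_mod_cast hc.ne'
  have hZ : 0 < ((x : ℂ) + y * I).im := by simpa using hy
  have hW : 0 < (-(x : ℂ) + y * w).im := by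
    simp only [add_im, neg_im, ofReal_im, neg_zero, mul_im, ofReal_re, zero_mul, add_zero, zero_add]
    positivity
  rw [← pw_mob hcz had hZ]
  obtain ⟨b, hb⟩ := had
  have hdet : a * d - b * (c : ℤ) = 1 := by linear_combination hb
  have hmod := h.mod a b (c : ℤ) d hdet (-(c : ZMod M)) (a : ZMod M) _ _ hZ hW
  have e1 : -(c : ZMod M) * ((a : ℤ) : ZMod M) + ((a : ℤ) : ZMod M) * (((c : ℕ) : ℤ) : ZMod M) = 0 := by
    rw [Int.cast_natCast]; ring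
  have e2 : -(c : ZMod M) * ((b : ℤ) : ZMod M) + ((a : ℤ) : ZMod M) * ((d : ℤ) : ZMod M) = 1 := by
    have := congrArg (fun n : ℤ => (n : ZMod M)) hdet
    push_cast at this
    linear_combination this
  rw [e1, e2] at hmod
  have hdet' : (a : ℂ) * d - b * c = 1 := by exact_mod_cast hdet
  -- the points
  have f1 : (c : ℂ) * (((x + d / c : ℝ) : ℂ) + y * I) = (c : ℂ) * (x + y * I) + d := by
    push_cast
    field_simp
    ring
  have f2 : (c : ℂ) * (((x + d / c : ℝ) : ℂ) - y * w) = -(c : ℂ) * (-x + y * w) + d := by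
    push_cast
    field_simp
    ring
  have n1 : (c : ℂ) * (x + y * I) + d ≠ 0 := by
    rw [← f1, ← normSq_pos]
    exact ct_pos hc _ hy
  have n2 : -(c : ℂ) * (-x + y * w) + d ≠ 0 := by
    rw [← f2, ← normSq_pos]
    exact ct_posw hc _ hy hw
  have g1 : cz c (x + d / c) y = -1 / ((c : ℂ) * ((c : ℂ) * (x + y * I) + d)) := by
    unfold cz
    rw [← f1]
    congr 1
    ring
  have g2 : cw c (x + d / c) y w = 1 / ((c : ℂ) * (-(c : ℂ) * (-x + y * w) + d)) := by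
    unfold cw
    rw [← f2]
    congr 1
    ring
  have p1 : (a : ℂ) / c + cz c (x + d / c) y = ((a : ℂ) * (x + y * I) + b) / ((c : ℂ) * (x + y * I) + d) := by
    rw [g1]
    field_simp
    linear_combination hdet'
  have p2 : -((a : ℂ) / c) + cw c (x + d / c) y w =
      ((a : ℂ) * (-x + y * w) - b) / (-(c : ℂ) * (-x + y * w) + d) := by
    rw [g2]
    exact ct_aux hcc n2 rfl hdet'
  have p3 : (a : ℂ) / ((c : ℤ) : ℂ) - 1 / (((c : ℤ) : ℂ) * ((((c : ℤ) : ℂ)) * (x + y * I) + d)) =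
      (a : ℂ) / c + cz c (x + d / c) y := by
    rw [g1]
    push_cast
    ring
  rw [p3]
  unfold cg
  rw [f1, f2, p2]
  rw [p1] at *
  push_cast at hmod
  rw [hmod]
  rw [inv_pow, inv_pow]
  exact ct_aux2 _ _ _ _ (pow_ne_zero _ n1) (pow_ne_zero _ n2)

/-- periodicity -/
theorem ct_per {M k0 k1 : ℕ} {P : ZMod M → ZMod M → ℂ → ℂ → ℂ} (h : PF M k0 k1 P) {c : ℕ}
    (hc : 0 < c) (t : ℝ) {y : ℝ} (hy : 0 < y) {w : ℂ} (hw : 0 < w.im) (a m : ℤ) :
    cg P k0 k1 c y w t (a + c * m) = cg P k0 k1 c y w t a := by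
  have hcc : (c : ℂ) ≠ 0 := by exact_mod_cast hc.ne'
  have hZ : 0 < ((a : ℂ) / c + cz c t y).im := by
    rw [cZ_im]; exact cz_im_pos hc t hy
  have hW : 0 < (-((a : ℂ) / c) + cw c t y w).im := by
    rw [cW_im]; exact cw_im_pos hc t hy hw
  have hmod := h.mod 1 m 0 1 (by ring) (-(c : ZMod M)) ((a + c * m : ℤ) : ZMod M) _ _ hZ hW
  have e1 : ((a + c * m : ℤ) : ℂ) / c + cz c t y = ((a : ℂ) / c + cz c t y) + m := by
    push_cast
    field_simp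
    ring
  have e2 : -(((a + c * m : ℤ) : ℂ) / c) + cw c t y w = (-((a : ℂ) / c) + cw c t y w) - m := by
    push_cast
    field_simp
    ring
  have e3 : -(c : ZMod M) * ((m : ℤ) : ZMod M) + ((a + c * m : ℤ) : ZMod M) * ((1 : ℤ) : ZMod M) = (a : ZMod M) := by
    push_cast; ring
  have e4 : -(c : ZMod M) * ((1 : ℤ) : ZMod M) + ((a + c * m : ℤ) : ZMod M) * ((0 : ℤ) : ZMod M) = -(c : ZMod M) := by
    push_cast; ring
  rw [e3, e4] at hmod
  simp only [Int.cast_one, one_mul, Int.cast_zero, zero_mul, zero_add, div_one, neg_zero, one_pow] at hmod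
  unfold cg
  rw [e1, e2, hmod, pw_add_int hZ]

theorem ct_dvd {M k0 k1 : ℕ} {P : ZMod M → ZMod M → ℂ → ℂ → ℂ} (h : PF M k0 k1 P) {c : ℕ}
    (hc : 0 < c) (t : ℝ) {y : ℝ} (hy : 0 < y) {w : ℂ} (hw : 0 < w.im) {a b : ℤ}
    (hab : (a : ZMod c) = (b : ZMod c)) :
    cg P k0 k1 c y w t a = cg P k0 k1 c y w t b := by
  obtain ⟨m, hm⟩ := (ZMod.intCast_eq_intCast_iff_dvd_sub b a c).mp hab.symm
  have : a = b + c * m := by linear_combination hm
  rw [this, ct_per h hc t hy hw]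

/-- support -/
theorem ct_supp {M k0 k1 : ℕ} {P : ZMod M → ZMod M → ℂ → ℂ → ℂ} {c : ℕ}
    (hc : 0 < c) (t : ℝ) {y : ℝ} (hy : 0 < y) {w : ℂ} {a : ℤ}
    (hh : 2 * y ≤ (c : ℝ) ^ 2 * (t ^ 2 + y ^ 2)) :
    cg P k0 k1 c y w t a = 0 := by
  have : pw ((a : ℂ) / c + cz c t y) = 0 := by
    apply pw_zero
    rw [cZ_im, cz_im hc, ct_ns, div_le_iff₀ (by positivity)]
    linarith
  unfold cg
  rw [this]
  simp

theorem ct_npow (z : ℂ) (hz : 0 < normSq z) (k : ℕ) :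
    ‖z⁻¹ ^ k‖ = (normSq z) ^ (-((k : ℝ) / 2)) := by
  rw [norm_pow, norm_inv, normSq_eq_norm_sq]
  have hz' : 0 < ‖z‖ := by
    rw [normSq_pos] at hz
    exact norm_pos_iff.mpr hz
  rw [← Real.rpow_natCast (‖z‖⁻¹), ← Real.rpow_natCast ‖z‖ 2, ← Real.rpow_mul hz'.le,
    Real.inv_rpow hz'.le, ← Real.rpow_neg hz'.le]
  congr 1
  push_cast
  ring

theorem ct_num {N0 N1 y v p q : ℝ} (h0 : 0 < N0) (h1 : 0 < N1) (hy : 0 < y) (hv : 0 < v) :
    N0 ^ (-p) * N1 ^ (-q) * ((y / N0) ^ (-p) * (y * v / N1) ^ (-q)) =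
      y ^ (-(p + q)) * v ^ (-q) := by
  rw [Real.div_rpow hy.le h0.le, Real.div_rpow (by positivity) h1.le, Real.mul_rpow hy.le hv.le,
    neg_add, Real.rpow_add hy]
  have a1 : N0 ^ (-p) ≠ 0 := (Real.rpow_pos_of_pos h0 _).ne'
  have a2 : N1 ^ (-q) ≠ 0 := (Real.rpow_pos_of_pos h1 _).ne'
  field_simp

/-- comparison of the two heights -/
theorem ct_heights {c : ℕ} (hc : 0 < c) (t : ℝ) {y : ℝ} (hy : 0 < y) {w : ℂ} {R S : ℝ} (hR : 0 < R)
    (hw : 1 / R ≤ w.im) (hS : 1 ≤ S) (hwS : ‖w‖ ≤ S) :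
    1 / (cw c t y w).im ≤ 2 * R * S ^ 2 / (cz c t y).im := by
  have hw0 : 0 < w.im := lt_of_lt_of_le (by positivity) hw
  rw [cw_im hc, cz_im hc, one_div_div, div_div_eq_mul_div, div_le_div_iff₀ (mul_pos hy hw0) hy]
  have h1 : normSq ((c : ℂ) * (t - y * w)) ≤ 2 * S ^ 2 * normSq ((c : ℂ) * (t + y * I)) := by
    rw [ct_ns, map_mul, normSq_natCast]
    have h2 : normSq ((t : ℂ) - y * w) ≤ 2 * S ^ 2 * (t ^ 2 + y ^ 2) := by
      have h3 : ‖(t : ℂ) - y * w‖ ≤ |t| + y * S := by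
        refine (norm_sub_le _ _).trans ?_
        rw [norm_mul, norm_real, norm_real, Real.norm_eq_abs, Real.norm_eq_abs, abs_of_pos hy]
        gcongr
      have h4 : normSq ((t : ℂ) - y * w) ≤ (|t| + y * S) ^ 2 := by
        rw [normSq_eq_norm_sq]
        gcongr
      have h5 : (|t| + y * S) ^ 2 ≤ 2 * (|t| ^ 2 + (y * S) ^ 2) := by
        nlinarith [sq_nonneg (|t| - y * S)]
      rw [sq_abs] at h5
      have h6 : t ^ 2 ≤ S ^ 2 * t ^ 2 := by
        have : 1 ≤ S ^ 2 := by nlinarith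
        nlinarith [sq_nonneg t]
      nlinarith
    calc (c : ℝ) * c * normSq ((t : ℂ) - y * w) ≤ (c : ℝ) * c * (2 * S ^ 2 * (t ^ 2 + y ^ 2)) := by
          gcongr
      _ = _ := by ring
  have h7 : 1 ≤ R * w.im := by
    rw [div_le_iff₀ hR] at hw
    linarith
  have h8 : 0 ≤ normSq ((c : ℂ) * (t + y * I)) := normSq_nonneg _
  calc normSq ((c : ℂ) * (t - y * w)) * y ≤ (2 * S ^ 2 * normSq ((c : ℂ) * (t + y * I))) * y := by
        gcongr
    _ = (2 * S ^ 2 * normSq ((c : ℂ) * (t + y * I)) * y) * 1 := by ring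
    _ ≤ (2 * S ^ 2 * normSq ((c : ℂ) * (t + y * I)) * y) * (R * w.im) := by gcongr
    _ = _ := by ring

/-- the bounds of the terms -/
theorem ct_bound {M k0 k1 : ℕ} {P : ZMod M → ZMod M → ℂ → ℂ → ℂ} (h : PF M k0 k1 P) {R : ℝ}
    (hR : 1 ≤ R) : ∃ C : ℝ, 0 ≤ C ∧ ∀ (c : ℕ) (_ : 0 < c) (t y : ℝ) (w : ℂ) (S : ℝ), 0 < y →
      1 / R ≤ w.im → 1 ≤ S → ‖w‖ ≤ S → ∀ a : ℤ,
      ‖cg P k0 k1 c y w t a‖ ≤ C * S ^ 2 * y ^ (-kk k0 k1) ∧
      ‖cg P k0 k1 c y w t (a + M) - cg P k0 k1 c y w t a‖ ≤ C * S ^ 2 * y ^ (-kk k0 k1) / c := by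
  obtain ⟨C1, hC1, hb⟩ := h.bdd
  obtain ⟨C2, hC2, hl⟩ := plip h
  obtain ⟨C3, hC3, hp⟩ := pw_lip
  set D : ℝ := R ^ ((k1 : ℝ) / 2) with hD
  have hR0 : 0 < R := by linarith
  have hD0 : 0 < D := Real.rpow_pos_of_pos hR0 _
  refine ⟨D * (C1 + M * (C2 * (2 + 4 * R) + C1 * C3)), by positivity,
    fun c hc t y w S hy hw hS hwS a => ?_⟩
  have hw0 : 0 < w.im := lt_of_lt_of_le (by positivity) hw
  have hcr : (0 : ℝ) < c := by exact_mod_cast hc
  have hcc : (c : ℂ) ≠ 0 := by exact_mod_cast hc.ne'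
  have hz := cz_im_pos hc t hy
  have hww := cw_im_pos hc t hy hw0
  set N0 : ℝ := normSq ((c : ℂ) * (t + y * I)) with hN0
  set N1 : ℝ := normSq ((c : ℂ) * (t - y * w)) with hN1
  have hN0' : 0 < N0 := ct_pos hc t hy
  have hN1' : 0 < N1 := ct_posw hc t hy hw0
  have hS2 : 1 ≤ S ^ 2 := by nlinarith
  have hnum : N0 ^ (-((k0 : ℝ) / 2)) * N1 ^ (-((k1 : ℝ) / 2)) *
      ((cz c t y).im ^ (-((k0 : ℝ) / 2)) * (cw c t y w).im ^ (-((k1 : ℝ) / 2))) ≤
      y ^ (-kk k0 k1) * D := by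
    rw [cz_im hc, cw_im hc, ← hN0, ← hN1, ct_num hN0' hN1' hy hw0]
    have e : -((k0 : ℝ) / 2 + (k1 : ℝ) / 2) = -kk k0 k1 := by unfold kk; ring
    rw [e]
    have : w.im ^ (-((k1 : ℝ) / 2)) ≤ D := by
      rw [hD, Real.rpow_neg hw0.le, ← Real.inv_rpow hw0.le]
      apply Real.rpow_le_rpow (by positivity) _ (by positivity)
      rw [inv_le_comm₀ hw0 hR0]
      simpa using hw
    have h2 : 0 < y ^ (-kk k0 k1) := Real.rpow_pos_of_pos hy _
    gcongr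
  have hpre : ‖((c : ℂ) * (t + y * I))⁻¹ ^ k0 * ((c : ℂ) * (t - y * w))⁻¹ ^ k1‖ =
      N0 ^ (-((k0 : ℝ) / 2)) * N1 ^ (-((k1 : ℝ) / 2)) := by
    rw [norm_mul, ct_npow _ hN0', ct_npow _ hN1']
  have hy0 : 0 < y ^ (-kk k0 k1) := Real.rpow_pos_of_pos hy _
  have hpre0 : 0 ≤ N0 ^ (-((k0 : ℝ) / 2)) * N1 ^ (-((k1 : ℝ) / 2)) := by positivity
  set Z : ℂ := (a : ℂ) / c + cz c t y with hZ
  set W : ℂ := -((a : ℂ) / c) + cw c t y w with hW
  have hZi : Z.im = (cz c t y).im := cZ_im _ _ _ _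
  have hWi : W.im = (cw c t y w).im := cW_im _ _ _ _ _
  have hbP := hb (-(c : ZMod M)) (a : ZMod M) Z W (by rw [hZi]; exact hz) (by rw [hWi]; exact hww)
  rw [hZi, hWi] at hbP
  have hpw : ∀ z : ℂ, 0 < z.im → ‖((pw z : ℝ) : ℂ)‖ ≤ 1 := by
    intro z hz
    rw [norm_real, Real.norm_eq_abs, abs_of_nonneg (pw_nonneg hz)]
    exact pw_le_one hz
  have hzr : 0 ≤ (cz c t y).im ^ (-((k0 : ℝ) / 2)) := Real.rpow_nonneg hz.le _
  have hwr : 0 ≤ (cw c t y w).im ^ (-((k1 : ℝ) / 2)) := Real.rpow_nonneg hww.le _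
  constructor
  · unfold cg
    rw [norm_mul, hpre, norm_mul]
    calc N0 ^ (-((k0 : ℝ) / 2)) * N1 ^ (-((k1 : ℝ) / 2)) *
          (‖P (-(c : ZMod M)) (a : ZMod M) Z W‖ * ‖((pw Z : ℝ) : ℂ)‖)
        ≤ N0 ^ (-((k0 : ℝ) / 2)) * N1 ^ (-((k1 : ℝ) / 2)) *
          ((C1 * (cz c t y).im ^ (-((k0 : ℝ) / 2)) * (cw c t y w).im ^ (-((k1 : ℝ) / 2))) * 1) := by
          have := hpw Z (by rw [hZi]; exact hz)
          gcongr
      _ = C1 * (N0 ^ (-((k0 : ℝ) / 2)) * N1 ^ (-((k1 : ℝ) / 2)) *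
          ((cz c t y).im ^ (-((k0 : ℝ) / 2)) * (cw c t y w).im ^ (-((k1 : ℝ) / 2)))) := by ring
      _ ≤ C1 * (y ^ (-kk k0 k1) * D) := by gcongr
      _ = (D * C1) * 1 * y ^ (-kk k0 k1) := by ring
      _ ≤ _ := by
          have : D * C1 ≤ D * (C1 + M * (C2 * (2 + 4 * R) + C1 * C3)) := by
            apply mul_le_mul_of_nonneg_left _ hD0.le
            have : 0 ≤ M * (C2 * (2 + 4 * R) + C1 * C3) := by positivity
            linarith
          gcongr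
  · by_cases hlow : (cz c t y).im ≤ 1 / 2
    · have hz1 : ∀ b : ℤ, cg P k0 k1 c y w t b = 0 := by
        intro b
        have : pw ((b : ℂ) / c + cz c t y) = 0 := pw_zero (by rw [cZ_im]; exact hlow)
        unfold cg
        rw [this]; simp
      rw [hz1, hz1]
      simp only [sub_self, norm_zero]
      positivity
    push Not at hlow
    set s : ℝ := (M : ℝ) / c with hs
    have hs0 : 0 ≤ s := by positivity
    have e1 : ((a + M : ℤ) : ℂ) / c + cz c t y = Z + s := by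
      rw [hZ, hs]; push_cast; ring
    have e2 : -(((a + M : ℤ) : ℂ) / c) + cw c t y w = W - s := by
      rw [hW, hs]; push_cast; ring
    have e3 : ((a + M : ℤ) : ZMod M) = (a : ZMod M) := by push_cast; simp
    have e4 : cg P k0 k1 c y w t (a + M) - cg P k0 k1 c y w t a =
        (((c : ℂ) * (t + y * I))⁻¹ ^ k0 * ((c : ℂ) * (t - y * w))⁻¹ ^ k1) *
        ((P (-(c : ZMod M)) (a : ZMod M) (Z + s) (W - s) - P (-(c : ZMod M)) (a : ZMod M) Z W) *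
          ((pw (Z + s) : ℝ) : ℂ) + P (-(c : ZMod M)) (a : ZMod M) Z W *
          ((pw (Z + s) - pw Z : ℝ) : ℂ)) := by
      unfold cg
      rw [e1, e2, e3]
      push_cast
      ring
    rw [e4, norm_mul, hpre]
    have hlP := hl (-(c : ZMod M)) (a : ZMod M) Z W (by rw [hZi]; exact hz) (by rw [hWi]; exact hww) s
    rw [hZi, hWi, abs_of_nonneg hs0] at hlP
    have hpl := hp Z (by rw [hZi]; exact hz) s
    rw [abs_of_nonneg hs0] at hpl
    have hht := ct_heights hc t hy hR0 hw hS hwS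
    have h2 : 2 * R * S ^ 2 / (cz c t y).im ≤ 4 * R * S ^ 2 := by
      rw [div_le_iff₀ hz]
      have : 0 < 4 * R * S ^ 2 := by positivity
      nlinarith
    have h3 : 1 / (cz c t y).im ≤ 2 := by
      rw [div_le_iff₀ hz]; linarith
    have h4 : 1 / (cz c t y).im + 1 / (cw c t y w).im ≤ (2 + 4 * R) * S ^ 2 := by
      nlinarith
    have hsum : ‖(P (-(c : ZMod M)) (a : ZMod M) (Z + s) (W - s) -
          P (-(c : ZMod M)) (a : ZMod M) Z W) * ((pw (Z + s) : ℝ) : ℂ) +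
          P (-(c : ZMod M)) (a : ZMod M) Z W * ((pw (Z + s) - pw Z : ℝ) : ℂ)‖ ≤
        ((cz c t y).im ^ (-((k0 : ℝ) / 2)) * (cw c t y w).im ^ (-((k1 : ℝ) / 2))) *
          ((C2 * (2 + 4 * R) + C1 * C3) * S ^ 2 * s) := by
      refine (norm_add_le _ _).trans ?_
      rw [norm_mul, norm_mul, norm_real (pw (Z + s) - pw Z), Real.norm_eq_abs]
      have h5 := hpw (Z + s) (by simpa [hZi] using hz)
      have h6 : 0 ≤ 1 / (cz c t y).im + 1 / (cw c t y w).im := by positivity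
      calc ‖P (-(c : ZMod M)) (a : ZMod M) (Z + s) (W - s) - P (-(c : ZMod M)) (a : ZMod M) Z W‖ *
            ‖((pw (Z + s) : ℝ) : ℂ)‖ + ‖P (-(c : ZMod M)) (a : ZMod M) Z W‖ * |pw (Z + s) - pw Z|
          ≤ (C2 * (cz c t y).im ^ (-((k0 : ℝ) / 2)) * (cw c t y w).im ^ (-((k1 : ℝ) / 2)) *
            ((2 + 4 * R) * S ^ 2) * s) * 1 +
            (C1 * (cz c t y).im ^ (-((k0 : ℝ) / 2)) * (cw c t y w).im ^ (-((k1 : ℝ) / 2))) *
            (C3 * s) := by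
            have h7 := hlP.trans (show _ ≤ C2 * (cz c t y).im ^ (-((k0 : ℝ) / 2)) *
              (cw c t y w).im ^ (-((k1 : ℝ) / 2)) * ((2 + 4 * R) * S ^ 2) * s by gcongr)
            gcongr
        _ = ((cz c t y).im ^ (-((k0 : ℝ) / 2)) * (cw c t y w).im ^ (-((k1 : ℝ) / 2))) *
            ((C2 * (2 + 4 * R) * S ^ 2 + C1 * C3 * 1) * s) := by ring
        _ ≤ ((cz c t y).im ^ (-((k0 : ℝ) / 2)) * (cw c t y w).im ^ (-((k1 : ℝ) / 2))) *
            ((C2 * (2 + 4 * R) * S ^ 2 + C1 * C3 * S ^ 2) * s) := by gcongr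
        _ = _ := by ring
    calc N0 ^ (-((k0 : ℝ) / 2)) * N1 ^ (-((k1 : ℝ) / 2)) *
          ‖(P (-(c : ZMod M)) (a : ZMod M) (Z + s) (W - s) -
          P (-(c : ZMod M)) (a : ZMod M) Z W) * ((pw (Z + s) : ℝ) : ℂ) +
          P (-(c : ZMod M)) (a : ZMod M) Z W * ((pw (Z + s) - pw Z : ℝ) : ℂ)‖
        ≤ N0 ^ (-((k0 : ℝ) / 2)) * N1 ^ (-((k1 : ℝ) / 2)) *
          (((cz c t y).im ^ (-((k0 : ℝ) / 2)) * (cw c t y w).im ^ (-((k1 : ℝ) / 2))) *
          ((C2 * (2 + 4 * R) + C1 * C3) * S ^ 2 * s)) := by gcongr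
      _ = (N0 ^ (-((k0 : ℝ) / 2)) * N1 ^ (-((k1 : ℝ) / 2)) *
          ((cz c t y).im ^ (-((k0 : ℝ) / 2)) * (cw c t y w).im ^ (-((k1 : ℝ) / 2)))) *
          ((C2 * (2 + 4 * R) + C1 * C3) * S ^ 2 * s) := by ring
      _ ≤ (y ^ (-kk k0 k1) * D) * ((C2 * (2 + 4 * R) + C1 * C3) * S ^ 2 * s) := by gcongr
      _ = D * (0 + M * (C2 * (2 + 4 * R) + C1 * C3)) * S ^ 2 * y ^ (-kk k0 k1) / c := by
          rw [hs]; ring
      _ ≤ _ := by gcongr

theorem cz_cont {c : ℕ} (hc : 0 < c) {y : ℝ} (hy : 0 < y) : Continuous fun t : ℝ => cz c t y := by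
  unfold cz
  apply Continuous.div continuous_const (by fun_prop)
  intro t h0
  have h1 := ct_pos hc t hy
  rw [normSq_pos] at h1
  apply h1
  have h2 : (c : ℂ) ≠ 0 := by exact_mod_cast hc.ne'
  rcases mul_eq_zero.mp h0 with h3 | h3
  · exact absurd h3 (pow_ne_zero _ h2)
  · rw [h3, mul_zero]

theorem cw_cont {c : ℕ} (hc : 0 < c) {y : ℝ} (hy : 0 < y) {w : ℂ} (hw : 0 < w.im) :
    Continuous fun t : ℝ => cw c t y w := by
  unfold cw
  apply Continuous.div continuous_const (by fun_prop)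
  intro t h0
  have h1 := ct_posw hc t hy hw
  rw [normSq_pos] at h1
  apply h1
  have h2 : (c : ℂ) ≠ 0 := by exact_mod_cast hc.ne'
  rcases mul_eq_zero.mp h0 with h3 | h3
  · exact absurd h3 (pow_ne_zero _ h2)
  · rw [h3, mul_zero]

theorem ct_cont {M k0 k1 : ℕ} {P : ZMod M → ZMod M → ℂ → ℂ → ℂ} (h : PF M k0 k1 P) {c : ℕ}
    (hc : 0 < c) {y : ℝ} (hy : 0 < y) {w : ℂ} (hw : 0 < w.im) (a : ℤ) :
    Continuous fun t : ℝ => cg P k0 k1 c y w t a := by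
  unfold cg
  have hZc : Continuous fun t : ℝ => (a : ℂ) / c + cz c t y := continuous_const.add (cz_cont hc hy)
  have hWc : Continuous fun t : ℝ => -((a : ℂ) / c) + cw c t y w :=
    continuous_const.add (cw_cont hc hy hw)
  refine Continuous.mul (Continuous.mul ?_ ?_) (Continuous.mul ?_ ?_)
  · apply Continuous.pow
    apply Continuous.inv₀ (by fun_prop)
    intro t
    rw [← normSq_pos]
    exact ct_pos hc t hy
  · apply Continuous.pow
    apply Continuous.inv₀ (by fun_prop)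
    intro t
    rw [← normSq_pos]
    exact ct_posw hc t hy hw
  · have h1 := (h.holo (-(c : ZMod M)) (a : ZMod M)).continuousOn
    exact h1.comp_continuous (hZc.prodMk hWc) (fun t => by
      refine ⟨?_, ?_⟩
      · show 0 < ((a : ℂ) / c + cz c t y).im
        rw [cZ_im]; exact cz_im_pos hc t hy
      · show 0 < (-((a : ℂ) / c) + cw c t y w).im
        rw [cW_im]; exact cw_im_pos hc t hy hw)
  · apply continuous_ofReal.comp
    exact pw_cont.comp_continuous hZc (fun t => by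
      show 0 < ((a : ℂ) / c + cz c t y).im
      rw [cZ_im]; exact cz_im_pos hc t hy)

end Pool.Agent.HL4
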